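import Pool.Agent.R344.TH.F

set_option autoImplicit false

/-! # Visits of a set, part A: the first moment at the lowest scales of a block -/

namespace Pool.Agent.W5h24.BC

open Finset
open Pool.Agent.H320R2.PD Pool.Agent.H499R2.ND
open Pool.Agent.H499R2.CO (Tz)
open Pool.Agent.R344.SP Pool.Agent.R344.TH

/-- a visit of `A₀` at time `k`, the smallest term up to this time being in `[z, z')` -/
def Hit (d : ℤ) (A₀ : Set ℤ) (z z' : ℝ) (x : ℤ) (k : ℕ) : Prop :=
  (Tz d)^[k] x ∈ A₀ ∧ (∀ j ≤ k, z ≤ (((Tz d)^[j] x : ℤ) : ℝ)) ∧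
    ∃ j ≤ k, (((Tz d)^[j] x : ℤ) : ℝ) < z'

/-- the integers with more than `r` visits -/
def Mv (d : ℤ) (A₀ : Set ℤ) (z z' : ℝ) (r : ℕ) : Set ℤ :=
  {x : ℤ | ∃ F : Finset ℕ, F.card = r + 1 ∧ ∀ k ∈ F, Hit d A₀ z z' x k}

theorem Mv_ge {d : ℤ} {A₀ : Set ℤ} {z z' : ℝ} {r : ℕ} {x : ℤ} (h : x ∈ Mv d A₀ z z' r) : z ≤ x := by
  obtain ⟨F, hF, hh⟩ := h
  obtain ⟨k, hk⟩ : F.Nonempty := by rw [← Finset.card_pos]; omega
  exact (hh k hk).2.1 0 (Nat.zero_le _)

theorem Mv_fwd {d : ℤ} (hd : d % 2 = 1) {A₀ : Set ℤ} {z z' : ℝ} (hz' : 0 < z') (r : ℕ) :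
    FwdA d z' (Mv d A₀ z z' r) := by
  intro M x e he hM hx hMz hxz hMS h
  obtain ⟨F, hF, hh⟩ := hMS
  have hval : ∀ i ≤ e, z' ≤ (((Tz d)^[i] M : ℤ) : ℝ) := by
    intro i hi
    rcases Nat.eq_zero_or_pos i with rfl | hi0
    · exact hMz
    · obtain ⟨i', rfl⟩ : ∃ i', i = i' + 1 := ⟨i - 1, by omega⟩
      rw [iter_syr hd hM h i' hi]
      push_cast
      have : (1 : ℝ) ≤ 2 ^ (e - (i' + 1)) := one_le_pow₀ (by norm_num)
      exact hxz.trans (le_mul_of_one_le_left (by linarith) this)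
  have hx' : (Tz d)^[e] M = x := by
    obtain ⟨i', rfl⟩ : ∃ i', e = i' + 1 := ⟨e - 1, by omega⟩
    rw [iter_syr hd hM h i' le_rfl]
    simp
  have hsh : ∀ j, (Tz d)^[j] x = (Tz d)^[j + e] M := by
    intro j
    rw [Function.iterate_add_apply, hx']
  have hgt : ∀ k ∈ F, ∃ j ≤ k, e < j ∧ (((Tz d)^[j] M : ℤ) : ℝ) < z' := by
    intro k hk
    obtain ⟨_, _, j, hj, hj2⟩ := hh k hk
    refine ⟨j, hj, ?_, hj2⟩
    by_contra hcon
    push Not at hcon
    have := hval j hcon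
    linarith
  refine ⟨F.image (fun k => k - e), ?_, ?_⟩
  · rw [card_image_of_injOn, hF]
    intro a ha b hb hab
    obtain ⟨j, hj, hj2, _⟩ := hgt a ha
    obtain ⟨j', hj', hj2', _⟩ := hgt b hb
    simp only at hab
    omega
  · intro k hk
    rw [mem_image] at hk
    obtain ⟨a, ha, rfl⟩ := hk
    obtain ⟨j, hj, hj2, hj3⟩ := hgt a ha
    obtain ⟨h1, h2, _⟩ := hh a ha
    refine ⟨?_, ?_, j - e, by omega, ?_⟩
    · rw [hsh, Nat.sub_add_cancel (by omega)]; exact h1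
    · intro i hi
      rw [hsh]; exact h2 _ (by omega)
    · rw [hsh, Nat.sub_add_cancel (by omega)]; exact hj3

theorem Tshift {d : ℤ} (hd : d % 2 = 1) (x y : ℤ) :
    Tz d (x + 2 * y) = Tz d x + 3 ^ (x % 2).toNat * y := by
  unfold Tz
  rcases Int.emod_two_eq_zero_or_one x with h | h
  · rw [if_pos h, if_pos (by omega), h]
    simp only [Int.toNat_zero, pow_zero, one_mul]
    omega
  · rw [if_neg (by omega), if_neg (by omega), h]
    simp only [Int.toNat_one, pow_one]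
    omega

theorem iter_shift {d : ℤ} (hd : d % 2 = 1) : ∀ (j : ℕ) (x y : ℤ),
    (Tz d)^[j] (x + 2 ^ j * y) = (Tz d)^[j] x + 3 ^ od d j x * y
  | 0, x, y => by simp [od]
  | j + 1, x, y => by
    rw [Function.iterate_succ_apply, Function.iterate_succ_apply, od_succ']
    have h1 : x + 2 ^ (j + 1) * y = x + 2 * (2 ^ j * y) := by ring
    rw [h1, Tshift hd]
    have h2 : Tz d x + 3 ^ (x % 2).toNat * (2 ^ j * y) = Tz d x + 2 ^ j * (3 ^ (x % 2).toNat * y) := by
      ring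
    rw [h2, iter_shift hd j]
    ring

open scoped Classical in
/-- the elements of `A₀` in `[z, W]` in a class modulo `3 ^ M` -/
noncomputable def fc (A₀ : Set ℤ) (z W : ℝ) (M : ℕ) (c : ℤ) : Finset ℤ :=
  (Icc ⌈z⌉ ⌊W⌋).filter (fun x => x ∈ A₀ ∧ (3 : ℤ) ^ M ∣ x - c)

theorem mem_fc {A₀ : Set ℤ} {z W : ℝ} {M : ℕ} {c x : ℤ} :
    x ∈ fc A₀ z W M c ↔ (z ≤ x ∧ (x : ℝ) ≤ W) ∧ x ∈ A₀ ∧ (3 : ℤ) ^ M ∣ x - c := by
  classical
  unfold fc
  rw [mem_filter, Finset.mem_Icc, Int.ceil_le, Int.le_floor]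

open scoped Classical in
/-- the first moment at time `k` -/
theorem first_moment {d : ℤ} (hd : d % 2 = 1) {A₀ : Set ℤ} {z δ : ℝ} (hz : 0 < z) (hδ : 0 ≤ δ) {M₀ : ℕ}
    (hA₀ : ∀ W : ℝ, ∀ M ≤ M₀, ∀ c : ℤ, 0 ≤ W → ((fc A₀ z W M c).card : ℝ) ≤ δ * (W / 3 ^ M))
    {k m : ℕ} (hkm : k + m ≤ M₀) (hk : (k : ℝ) * |(d : ℝ)| ≤ z) {A : ℝ} (hA : 0 ≤ A) {u : ℤ}
    (hu : IsCoprime u 3) (v : ℤ) :
    (((cls Set.univ A (2 * A) m u v).filter (fun x => (Tz d)^[k] x ∈ A₀ ∧
      ∀ j ≤ k, z ≤ (((Tz d)^[j] x : ℤ) : ℝ))).card : ℝ) ≤ 4 * δ * (A / 3 ^ m) := by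
  set Q := (cls Set.univ A (2 * A) m u v).filter (fun x => (Tz d)^[k] x ∈ A₀ ∧
      ∀ j ≤ k, z ≤ (((Tz d)^[j] x : ℤ) : ℝ)) with hQ
  have h2k : (0 : ℤ) < 2 ^ k := by positivity
  have hmaps : ∀ x ∈ Q, (fun x : ℤ => (x % 2 ^ k).toNat) x ∈ range (2 ^ k) := by
    intro x _
    rw [mem_range]
    have h1 := Int.emod_nonneg x h2k.ne'
    have h2 := Int.emod_lt_of_pos x h2k
    simp only
    zify
    rw [Int.toNat_of_nonneg h1]
    exact h2
  rw [card_eq_sum_card_fiberwise hmaps]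
  push_cast
  have hfib : ∀ s ∈ range (2 ^ k), ((Q.filter (fun x : ℤ => (x % 2 ^ k).toNat = s)).card : ℝ) ≤
      4 * δ * (A / (2 ^ k * 3 ^ m)) := by
    intro s _
    rcases (Q.filter (fun x : ℤ => (x % 2 ^ k).toNat = s)).eq_empty_or_nonempty with he | ⟨x₀, hx₀⟩
    · rw [he, card_empty, Nat.cast_zero]
      positivity
    set R := Q.filter (fun x : ℤ => (x % 2 ^ k).toNat = s) with hR
    have hstr : ∀ x ∈ R, ∃ y : ℤ, x = x₀ + 2 ^ k * (3 ^ m * y) := by
      intro x hx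
      rw [hR, mem_filter, hQ, mem_filter, mem_cls] at hx hx₀
      have h1 : x % 2 ^ k = x₀ % 2 ^ k := by
        have a1 := Int.emod_nonneg x h2k.ne'
        have a2 := Int.emod_nonneg x₀ h2k.ne'
        have a3 := hx.2.trans hx₀.2.symm
        omega
      have h2 : (2 : ℤ) ^ k ∣ x - x₀ := Int.ModEq.dvd (show x₀ ≡ x [ZMOD 2 ^ k] from h1.symm)
      have h3 : (3 : ℤ) ^ m ∣ x - x₀ := by
        have h4 : (3 : ℤ) ^ m ∣ u * (x - x₀) := by
          have := dvd_sub hx.1.1.2.2.2 hx₀.1.1.2.2.2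
          have e : u * x - v - (u * x₀ - v) = u * (x - x₀) := by ring
          rwa [e] at this
        have h5 : IsCoprime ((3 : ℤ) ^ m) u := (IsCoprime.pow_left hu.symm)
        exact h5.dvd_of_dvd_mul_left h4
      have h6 : IsCoprime ((2 : ℤ) ^ k) (3 ^ m) := by
        apply IsCoprime.pow
        exact ⟨-1, 1, by norm_num⟩
      obtain ⟨y, hy⟩ := h6.mul_dvd h2 h3
      exact ⟨y, by linarith⟩
    have hgr : ∀ x ∈ R, (((Tz d)^[k] x : ℤ) : ℝ) * 2 ^ k ≤ 2 * (3 ^ od d k x * x) := by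
      intro x hx
      rw [hR, mem_filter, hQ, mem_filter, mem_cls] at hx
      have hp := hx.1.2.2
      have hx0 : 0 < x := by
        have h1 := hp 0 (Nat.zero_le _)
        rw [Function.iterate_zero, id] at h1
        have : (0 : ℝ) < x := by linarith
        exact_mod_cast this
      exact growth_two hd hz hk hx0 (fun i hi => hp i hi.le)
    set a := od d k x₀ with ha
    have hval : ∀ x ∈ R, ∀ y : ℤ, x = x₀ + 2 ^ k * (3 ^ m * y) →
        (Tz d)^[k] x = (Tz d)^[k] x₀ + 3 ^ (a + m) * y ∧ od d k x = a := by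
      intro x _ y hy
      constructor
      · rw [hy, iter_shift hd, pow_add]; ring
      · rw [hy, mul_comm, od_periodic hd]
    set W : ℝ := 4 * (3 ^ a * A / 2 ^ k) with hW
    have hcard : R.card ≤ (fc A₀ z W (a + m) ((Tz d)^[k] x₀)).card := by
      apply card_le_card_of_injOn (fun x => (Tz d)^[k] x)
      · intro x hx
        have hx' : x ∈ R := hx
        obtain ⟨y, hy⟩ := hstr x hx'
        obtain ⟨e1, e2⟩ := hval x hx' y hy
        have hg := hgr x hx'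
        have hx2 := hx'
        rw [hR, mem_filter, hQ, mem_filter, mem_cls] at hx2
        rw [mem_coe, mem_fc]
        refine ⟨⟨hx2.1.2.2 k le_rfl, ?_⟩, hx2.1.2.1, ?_⟩
        · rw [hW, ← mul_div_assoc, le_div_iff₀ (by positivity)]
          rw [e2] at hg
          refine hg.trans ?_
          have h1 : (3 : ℝ) ^ a * x ≤ 3 ^ a * (2 * A) :=
            mul_le_mul_of_nonneg_left hx2.1.1.1.2.le (by positivity)
          linarith
        · simp only
          rw [e1]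
          exact ⟨y, by ring⟩
      · intro x hx x' hx' hxx
        obtain ⟨y, hy⟩ := hstr x hx
        obtain ⟨y', hy'⟩ := hstr x' hx'
        obtain ⟨e1, _⟩ := hval x hx y hy
        obtain ⟨e1', _⟩ := hval x' hx' y' hy'
        simp only at hxx
        rw [e1, e1'] at hxx
        have h3 : (3 : ℤ) ^ (a + m) ≠ 0 := by positivity
        have h4 : y = y' := by
          have : (3 : ℤ) ^ (a + m) * y = 3 ^ (a + m) * y' := by linarith
          exact mul_left_cancel₀ h3 this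
        rw [hy, hy', h4]
    have hak : a ≤ k := od_le d k x₀
    have h1 := hA₀ W (a + m) (by omega) ((Tz d)^[k] x₀) (by rw [hW]; positivity)
    have h2 : (R.card : ℝ) ≤ ((fc A₀ z W (a + m) ((Tz d)^[k] x₀)).card : ℝ) := by exact_mod_cast hcard
    refine h2.trans (h1.trans (le_of_eq ?_))
    rw [hW, pow_add]
    field_simp
  refine (sum_le_sum hfib).trans (le_of_eq ?_)
  rw [sum_const, card_range, nsmul_eq_mul]
  push_cast
  field_simp

/-- families of sets -/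
def PBF (S : ℕ → Set ℤ) (Λ : ℕ) (A : ℝ) (m : ℕ) (ρ : ℝ) : Prop :=
  ∀ u v : ℤ, IsCoprime u 3 → ∑ r ∈ range Λ, ((cls (S r) A (2 * A) m u v).card : ℝ) ≤
    ρ * (A / (2 * 3 ^ m))

theorem PBF.mono {S : ℕ → Set ℤ} {Λ : ℕ} {A : ℝ} {m : ℕ} {ρ ρ' : ℝ} (h : PBF S Λ A m ρ) (hA : 0 ≤ A)
    (hρ : ρ ≤ ρ') : PBF S Λ A m ρ' := by
  intro u v hu
  exact (h u v hu).trans (mul_le_mul_of_nonneg_right hρ (by positivity))

open scoped Classical in
/-- the sum over the sets `Mv` at the lowest scales -/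
theorem base_sum {d : ℤ} (hd : d % 2 = 1) {A₀ : Set ℤ} {z z' : ℝ} (hz : 0 < z) {K : ℕ}
    (hK : (K : ℝ) * |(d : ℝ)| ≤ z) {c₁ : ℝ} {A : ℝ}
    (hcl : ∀ j : ℕ, (j : ℝ) < c₁ * K → 4 * A * 3 ^ j < z * 2 ^ K) (S : ℕ → Set ℤ) (Λ : ℕ) (H : ℕ)
    (hS : ∀ r < Λ, ∀ x ∈ S r, x ∈ Mv d A₀ z z' (r + H)) (m : ℕ) (u v : ℤ) :
    ∑ r ∈ range Λ, ((cls (S r) A (2 * A) m u v).card : ℝ) ≤
      (if H = 0 then ∑ k ∈ range K, (((cls Set.univ A (2 * A) m u v).filter (fun x => (Tz d)^[k] x ∈ A₀ ∧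
        ∀ j ≤ k, z ≤ (((Tz d)^[j] x : ℤ) : ℝ))).card : ℝ) else
        (if K ≤ H then 0 else Λ * ((cls Set.univ A (2 * A) m u v).card : ℝ)))
      + Λ * (((Wn A).filter (fun n => c₁ * K ≤ (od d K n : ℝ))).card : ℝ) := by
  set U := cls Set.univ A (2 * A) m u v with hU
  set L := (Wn A).filter (fun n => c₁ * K ≤ (od d K n : ℝ)) with hL
  set h : ℤ → ℕ := fun x => ((range K).filter (fun k => (Tz d)^[k] x ∈ A₀ ∧
        ∀ j ≤ k, z ≤ (((Tz d)^[j] x : ℤ) : ℝ))).card with hh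
  -- long paths are in `L`
  have hkey : ∀ x ∈ U, x ∉ L → ∀ r, x ∈ Mv d A₀ z z' r → r + 1 ≤ h x := by
    intro x hxU hxL r hx
    obtain ⟨F, hF, hFh⟩ := hx
    have hxz : z ≤ x := Mv_ge ⟨F, hF, hFh⟩
    have hx0 : 0 < x := by
      have : (0 : ℝ) < x := lt_of_lt_of_le hz hxz
      exact_mod_cast this
    rw [hU, mem_cls] at hxU
    have hod : (od d K x : ℝ) < c₁ * K := by
      by_contra hcon
      push Not at hcon
      apply hxL
      rw [hL, mem_filter, mem_Wn]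
      exact ⟨hxU.1, hcon⟩
    rw [← hF, hh]
    apply card_le_card
    intro k hk
    obtain ⟨h1, h2, _⟩ := hFh k hk
    rw [mem_filter, mem_range]
    refine ⟨?_, h1, h2⟩
    by_contra hcon
    push Not at hcon
    have g1 := growth_two hd hz hK hx0 (fun i hi => h2 i (by omega))
    have g2 := hcl _ hod
    have g3 := h2 K hcon
    have g4 : z * 2 ^ K ≤ 2 * (3 ^ od d K x * x) :=
      (mul_le_mul_of_nonneg_right g3 (by positivity)).trans g1
    have g5 : 2 * ((3 : ℝ) ^ od d K x * x) ≤ 4 * A * 3 ^ od d K x := by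
      have : (0 : ℝ) < 3 ^ od d K x := by positivity
      nlinarith [hxU.1.2]
    linarith
  have hcls : ∀ r, ((cls (S r) A (2 * A) m u v).card : ℝ) = ∑ x ∈ U, (if x ∈ S r then (1 : ℝ) else 0) := by
    intro r
    rw [← sum_filter, sum_const, nsmul_eq_mul, mul_one]
    congr 2
    ext x
    rw [hU, mem_filter, mem_cls, mem_cls]
    simp only [Set.mem_univ, true_and]
    tauto
  rw [sum_congr rfl fun r _ => hcls r, sum_comm]
  have hLsum : ∑ x ∈ U, (if x ∈ L then (Λ : ℝ) else 0) ≤ Λ * (L.card : ℝ) := by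
    rw [← sum_filter, sum_const, nsmul_eq_mul, mul_comm]
    apply mul_le_mul_of_nonneg_left _ (Nat.cast_nonneg _)
    have : (U.filter (fun x => x ∈ L)).card ≤ L.card := by
      apply card_le_card
      intro x hx
      rw [mem_filter] at hx
      exact hx.2
    exact_mod_cast this
  have hΛ : ∀ x, ∑ r ∈ range Λ, (if x ∈ S r then (1 : ℝ) else 0) ≤ Λ := by
    intro x
    calc ∑ r ∈ range Λ, (if x ∈ S r then (1 : ℝ) else 0) ≤ ∑ _r ∈ range Λ, (1 : ℝ) := by
          apply sum_le_sum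
          intro r _
          split_ifs <;> norm_num
      _ = Λ := by simp
  by_cases hH : H = 0
  · rw [if_pos hH]
    subst hH
    have h1 : ∀ x ∈ U, ∑ r ∈ range Λ, (if x ∈ S r then (1 : ℝ) else 0) ≤
        (h x : ℝ) + (if x ∈ L then (Λ : ℝ) else 0) := by
      intro x hx
      by_cases hxL : x ∈ L
      · rw [if_pos hxL]
        have := hΛ x
        have h0 : (0 : ℝ) ≤ h x := Nat.cast_nonneg _
        linarith
      · rw [if_neg hxL, add_zero, ← sum_filter, sum_const, nsmul_eq_mul, mul_one]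
        have h2 : ((range Λ).filter (fun r => x ∈ S r)).card ≤ (range (h x)).card := by
          apply card_le_card
          intro r hr
          rw [mem_filter, mem_range] at hr
          rw [mem_range]
          have := hkey x hx hxL (r + 0) (hS r hr.1 x hr.2)
          omega
        rw [card_range] at h2
        exact_mod_cast h2
    refine (sum_le_sum h1).trans ?_
    rw [sum_add_distrib]
    apply add_le_add _ hLsum
    apply le_of_eq
    have h3 : ∀ x, (h x : ℝ) = ∑ k ∈ range K, (if (Tz d)^[k] x ∈ A₀ ∧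
        ∀ j ≤ k, z ≤ (((Tz d)^[j] x : ℤ) : ℝ) then (1 : ℝ) else 0) := by
      intro x
      rw [← sum_filter, sum_const, nsmul_eq_mul, mul_one]
    rw [sum_congr rfl fun x _ => h3 x, sum_comm]
    apply sum_congr rfl
    intro k _
    rw [← sum_filter, sum_const, nsmul_eq_mul, mul_one]
  · rw [if_neg hH]
    by_cases hKH : K ≤ H
    · rw [if_pos hKH, zero_add]
      refine le_trans (sum_le_sum ?_) hLsum
      intro x hx
      by_cases hxL : x ∈ L
      · rw [if_pos hxL]; exact hΛ x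
      · rw [if_neg hxL]
        apply le_of_eq
        apply sum_eq_zero
        intro r hr
        rw [mem_range] at hr
        rw [if_neg]
        intro hxS
        have h1 := hkey x hx hxL (r + H) (hS r hr x hxS)
        have h2 : h x ≤ K := by
          rw [hh]
          refine (card_filter_le _ _).trans ?_
          rw [card_range]
        omega
    · rw [if_neg hKH]
      have h1 : ∑ x ∈ U, ∑ r ∈ range Λ, (if x ∈ S r then (1 : ℝ) else 0) ≤ ∑ _x ∈ U, (Λ : ℝ) :=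
        sum_le_sum fun x _ => hΛ x
      rw [sum_const, nsmul_eq_mul] at h1
      have h2 : (0 : ℝ) ≤ Λ * (L.card : ℝ) := by positivity
      linarith

end Pool.Agent.W5h24.BC
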