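import Pool.Agent.W5h24.BC.A

set_option autoImplicit false

/-! # Visits of a set, part B: the lowest scales of a block -/

namespace Pool.Agent.W5h24.BC

open Finset
open Pool.Agent.H320R2.PD Pool.Agent.H499R2.ND
open Pool.Agent.H499R2.CO (Tz)
open Pool.Agent.R344.SP Pool.Agent.R344.TH

open scoped Classical in
/-- few integers stay above `z` for `K` steps -/
theorem long_small {d : ℤ} (hd : d % 2 = 1) (B : ℕ) : ∃ l₀ : ℝ, 0 < l₀ ∧ ∀ z : ℝ, 0 < z →
    l₀ ≤ Real.log z → ∀ K : ℕ, K = ⌈400 * Real.sqrt (Real.log z)⌉₊ → ∀ A : ℝ, z / 2 ≤ A →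
    Real.log A ≤ Real.log z + 6 * Real.sqrt (Real.log z) → ∀ m : ℕ, (m : ℝ) ≤ (Real.log A) ^ (1 / 4 : ℝ) →
    1 ≤ K ∧ (K : ℝ) * |(d : ℝ)| ≤ z ∧ (∀ j : ℕ, (j : ℝ) < 0.6 * K → 4 * A * 3 ^ j < z * 2 ^ K) ∧
    (((Wn A).filter (fun n => 0.6 * K ≤ (od d K n : ℝ))).card : ℝ) ≤
      1 / (Real.log z) ^ B * (A / (2 * 3 ^ m)) ∧ ((K + m : ℕ) : ℝ) ≤ 403 * Real.sqrt (Real.log z) := by
  obtain ⟨ρ, hρ0, hρ1, hod⟩ := od_large hd (c₁ := 0.6) (by norm_num)
  have hlogρ : Real.log ρ < 0 := Real.log_neg hρ0 hρ1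
  set c : ℝ := -(200 * Real.log ρ) with hc
  have hc0 : 0 < c := by rw [hc]; linarith
  have hev1 : ∀ᶠ u : ℝ in Filter.atTop, u ^ ((2 * B : ℕ) : ℝ) * Real.exp (-c * u) ≤ 1 / 8 :=
    (tendsto_rpow_mul_exp_neg_mul_atTop_nhds_zero _ c hc0).eventually_le_const (by norm_num)
  have hev2 : ∀ᶠ u : ℝ in Filter.atTop, (1000 : ℝ) ≤ u := Filter.eventually_ge_atTop _
  have hev3 : ∀ᶠ u : ℝ in Filter.atTop, (2.4 / c) ^ 2 ≤ u := Filter.eventually_ge_atTop _
  obtain ⟨u₀, hu₀⟩ := Filter.eventually_atTop.1 (hev1.and (hev2.and hev3))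
  refine ⟨max (max 1 (2 * |(d : ℝ)|)) ((max u₀ 1) ^ 2), by positivity, ?_⟩
  intro z hz hl K hKd A hA1 hA2 m hm
  set l := Real.log z with hldef
  have hl1 : 1 ≤ l := (le_max_left _ _).trans ((le_max_left _ _).trans hl)
  have hl2 : 2 * |(d : ℝ)| ≤ l := (le_max_right _ _).trans ((le_max_left _ _).trans hl)
  have hl3 : (max u₀ 1) ^ 2 ≤ l := (le_max_right _ _).trans hl
  have hl0 : 0 < l := by linarith
  set u := Real.sqrt l with hu
  have hu2 : u ^ 2 = l := Real.sq_sqrt hl0.le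
  have hum : max u₀ 1 ≤ u := Real.le_sqrt_of_sq_le hl3
  obtain ⟨h1, h2, h3⟩ := hu₀ u ((le_max_left _ _).trans hum)
  have hupos : 0 < u := by linarith
  have hexpz : Real.exp l = z := Real.exp_log hz
  have hApos : 0 < A := by linarith
  have hexpA : Real.exp (Real.log A) = A := Real.exp_log hApos
  have hln2a := Real.log_two_gt_d9
  have hln2b := Real.log_two_lt_d9
  have hln3 := log3_le
  have hul : 1000 * u ≤ l := by rw [← hu2]; nlinarith
  have hK1 : 400 * u ≤ K := by rw [hKd]; exact Nat.le_ceil _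
  have hK2 : (K : ℝ) ≤ 400 * u + 1 := by rw [hKd]; exact (Nat.ceil_lt_add_one (by positivity)).le
  have hK1N : 1 ≤ K := by
    have : (1 : ℝ) ≤ K := by linarith
    exact_mod_cast this
  have h2K : (2 : ℝ) ^ K = Real.exp (K * Real.log 2) := by
    rw [Real.exp_nat_mul, Real.exp_log (by norm_num)]
  have hKd : (K : ℝ) * |(d : ℝ)| ≤ z := by
    have e1 : (K : ℝ) ≤ l := by linarith
    have e2 : l ^ 2 / 2 ≤ z := by
      have := Real.pow_div_factorial_le_exp l hl0.le 2
      rw [hexpz] at this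
      simpa using this
    have e3 : (K : ℝ) * |(d : ℝ)| ≤ l * (l / 2) :=
      mul_le_mul e1 (by linarith) (abs_nonneg _) hl0.le
    linarith
  have hAlog : l - Real.log 2 ≤ Real.log A := by
    rw [hldef, ← Real.log_div hz.ne' (by norm_num)]
    exact Real.log_le_log (by positivity) hA1
  have h2KA : (2 : ℝ) ^ K ≤ A := by
    rw [h2K, ← hexpA]
    apply Real.exp_le_exp.2
    have : (K : ℝ) * Real.log 2 ≤ (400 * u + 1) * 0.7 :=
      mul_le_mul hK2 (by linarith) (by linarith) (by positivity)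
    linarith
  have hAz : A ≤ z * Real.exp (6 * u) := by
    rw [← hexpA, ← hexpz, ← Real.exp_add]
    exact Real.exp_le_exp.2 hA2
  have hm2 : (m : ℝ) ≤ 2 * Real.sqrt u := by
    refine hm.trans ?_
    have e2 : Real.log A ≤ 16 * l := by linarith
    have e3 : 0 ≤ Real.log A := by linarith
    calc (Real.log A) ^ (1 / 4 : ℝ) ≤ (16 * l) ^ (1 / 4 : ℝ) := Real.rpow_le_rpow e3 e2 (by norm_num)
      _ = 16 ^ (1 / 4 : ℝ) * l ^ (1 / 4 : ℝ) := Real.mul_rpow (by norm_num) hl0.le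
      _ = 2 * Real.sqrt u := by
          congr 1
          · rw [show (16 : ℝ) = 2 ^ (4 : ℝ) by norm_num, ← Real.rpow_mul (by norm_num)]
            norm_num
          · rw [hu, Real.sqrt_eq_rpow, Real.sqrt_eq_rpow, ← Real.rpow_mul hl0.le]
            norm_num
  have hsu : Real.sqrt u ≤ u := by
    rw [Real.sqrt_le_left hupos.le]; nlinarith
  refine ⟨hK1N, hKd, ?_, ?_, ?_⟩
  · intro j hj
    have e1 : (3 : ℝ) ^ j ≤ Real.exp (0.96 * (K * Real.log 2)) := by
      have : (3 : ℝ) ^ j = Real.exp (j * Real.log 3) := by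
        rw [Real.exp_nat_mul, Real.exp_log (by norm_num)]
      rw [this]
      apply Real.exp_le_exp.2
      calc (j : ℝ) * Real.log 3 ≤ (0.6 * K) * (8 / 5 * Real.log 2) := by
            apply mul_le_mul hj.le hln3 (Real.log_nonneg (by norm_num)) (by positivity)
        _ = _ := by ring
    have e2 : 4 * A * 3 ^ j ≤ Real.exp (2 * Real.log 2) * (z * Real.exp (6 * u))
        * Real.exp (0.96 * (K * Real.log 2)) := by
      have : Real.exp (2 * Real.log 2) = 4 := by
        rw [show (2 : ℝ) * Real.log 2 = ((2 : ℕ) : ℝ) * Real.log 2 by norm_num, Real.exp_nat_mul,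
          Real.exp_log (by norm_num)]
        norm_num
      rw [this]
      apply mul_le_mul _ e1 (by positivity) (by positivity)
      linarith
    refine e2.trans_lt ?_
    have e3 : Real.exp (2 * Real.log 2) * (z * Real.exp (6 * u)) * Real.exp (0.96 * (K * Real.log 2))
        = z * Real.exp (2 * Real.log 2 + 6 * u + 0.96 * (K * Real.log 2)) := by
      rw [Real.exp_add, Real.exp_add]; ring
    rw [e3, h2K]
    apply mul_lt_mul_of_pos_left _ hz
    apply Real.exp_lt_exp.2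
    have e4 : 400 * u * 0.69 ≤ K * Real.log 2 := mul_le_mul hK1 (by linarith) (by norm_num) (by positivity)
    linarith
  · have h3m : (3 : ℝ) ^ m ≤ Real.exp (2.4 * Real.sqrt u) := by
      have e0 : (3 : ℝ) ^ m = Real.exp (m * Real.log 3) := by
        rw [Real.exp_nat_mul, Real.exp_log (by norm_num)]
      rw [e0]
      apply Real.exp_le_exp.2
      calc (m : ℝ) * Real.log 3 ≤ (2 * Real.sqrt u) * 1.2 :=
            mul_le_mul hm2 (by linarith) (Real.log_nonneg (by norm_num)) (by positivity)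
        _ = _ := by ring
    have h24 : 2.4 * Real.sqrt u ≤ c * u := by
      have e1 : 2.4 / c ≤ Real.sqrt u := Real.le_sqrt_of_sq_le h3
      rw [div_le_iff₀ hc0] at e1
      have e2 : Real.sqrt u * Real.sqrt u = u := Real.mul_self_sqrt hupos.le
      nlinarith [Real.sqrt_nonneg u]
    set E := Real.exp (-c * u) with hE
    have hE0 : 0 < E := Real.exp_pos _
    have hP : l ^ B = u ^ ((2 * B : ℕ) : ℝ) := by
      rw [Real.rpow_natCast, pow_mul, hu2]
    have hPE : l ^ B * E ≤ 1 / 8 := by rw [hP]; exact h1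
    have hE2 : (3 : ℝ) ^ m * ρ ^ K ≤ E := by
      have e0 : ρ ^ K = Real.exp (K * Real.log ρ) := by
        rw [Real.exp_nat_mul, Real.exp_log hρ0]
      rw [e0]
      calc (3 : ℝ) ^ m * Real.exp (K * Real.log ρ)
          ≤ Real.exp (2.4 * Real.sqrt u) * Real.exp (K * Real.log ρ) :=
            mul_le_mul_of_nonneg_right h3m (Real.exp_pos _).le
        _ ≤ E := by
            rw [← Real.exp_add, hE]
            apply Real.exp_le_exp.2
            have e1 : (K : ℝ) * Real.log ρ ≤ 400 * u * Real.log ρ :=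
              mul_le_mul_of_nonpos_right hK1 hlogρ.le
            have e2 : 400 * u * Real.log ρ = -(2 * (c * u)) := by rw [hc]; ring
            linarith
    have h3m0 : (0 : ℝ) < 3 ^ m := by positivity
    refine (hod K A hApos.le).trans ?_
    calc (A + 2 ^ K) * ρ ^ K ≤ (2 * A) * (3 ^ m * ρ ^ K / 3 ^ m) := by
          rw [mul_div_cancel_left₀ _ h3m0.ne']
          apply mul_le_mul_of_nonneg_right _ (by positivity)
          linarith
      _ ≤ 2 * A * (E / 3 ^ m) := by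
          apply mul_le_mul_of_nonneg_left _ (by positivity)
          exact div_le_div_of_nonneg_right hE2 h3m0.le
      _ ≤ 2 * A * ((1 / 8 / l ^ B) / 3 ^ m) := by
          apply mul_le_mul_of_nonneg_left _ (by positivity)
          apply div_le_div_of_nonneg_right _ h3m0.le
          rw [le_div_iff₀ (by positivity), mul_comm]; exact hPE
      _ ≤ 1 / l ^ B * (A / (2 * 3 ^ m)) := by
          have e : 2 * A * ((1 / 8 / l ^ B) / 3 ^ m) = 1 / 2 * (1 / l ^ B * (A / (2 * 3 ^ m))) := by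
            field_simp; norm_num
          rw [e]
          have : 0 ≤ 1 / l ^ B * (A / (2 * 3 ^ m)) := by positivity
          linarith
  · push_cast
    linarith

open scoped Classical in
/-- the lowest scales of a block -/
theorem base_PBF {d : ℤ} (hd : d % 2 = 1) (B : ℕ) : ∃ l₀ : ℝ, 0 < l₀ ∧ ∀ z : ℝ, 0 < z →
    l₀ ≤ Real.log z → ∀ K : ℕ, K = ⌈400 * Real.sqrt (Real.log z)⌉₊ → ∀ (z' δ : ℝ) (A₀ : Set ℤ) (M₀ : ℕ),
    0 ≤ δ → 403 * Real.sqrt (Real.log z) ≤ M₀ →
    (∀ W : ℝ, ∀ M ≤ M₀, ∀ c : ℤ, 0 ≤ W → ((fc A₀ z W M c).card : ℝ) ≤ δ * (W / 3 ^ M)) →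
    ∀ A : ℝ, z / 2 ≤ A → Real.log A ≤ Real.log z + 6 * Real.sqrt (Real.log z) →
    ∀ m : ℕ, (m : ℝ) ≤ (Real.log A) ^ (1 / 4 : ℝ) →
      PBF (Mv d A₀ z z') (K + 1) A m (8 * K * δ + (K + 1) * (1 / (Real.log z) ^ B)) ∧
      PBF (fun _ => Mv d A₀ z z' K) 1 A m (1 / (Real.log z) ^ B) := by
  obtain ⟨l₀, hl₀, hlong⟩ := long_small hd B
  refine ⟨l₀, hl₀, ?_⟩
  intro z hz hl K hK z' δ A₀ M₀ hδ hM₀ hA₀ A hA1 hA2 m hm
  obtain ⟨hK1, hKd, hcl, hL, hKm⟩ := hlong z hz hl K hK A hA1 hA2 m hm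
  have hA0 : 0 < A := by linarith
  have hKmN : K + m ≤ M₀ := by
    have : ((K + m : ℕ) : ℝ) ≤ M₀ := hKm.trans hM₀
    exact_mod_cast this
  constructor
  · intro u v hu
    have h1 := base_sum hd hz hKd hcl (Mv d A₀ z z') (K + 1) 0 (z' := z') (A₀ := A₀)
      (fun r _ x hx => by simpa using hx) m u v
    rw [if_pos rfl] at h1
    refine h1.trans ?_
    have h2 : ∑ k ∈ range K, (((cls Set.univ A (2 * A) m u v).filter (fun x => (Tz d)^[k] x ∈ A₀ ∧
        ∀ j ≤ k, z ≤ (((Tz d)^[j] x : ℤ) : ℝ))).card : ℝ) ≤ ∑ _k ∈ range K, 4 * δ * (A / 3 ^ m) := by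
      apply sum_le_sum
      intro k hk
      rw [mem_range] at hk
      apply first_moment hd hz hδ hA₀ (by omega) _ hA0.le hu v
      refine le_trans ?_ hKd
      apply mul_le_mul_of_nonneg_right _ (abs_nonneg _)
      exact_mod_cast hk.le
    rw [sum_const, card_range, nsmul_eq_mul] at h2
    have h3 : ((K + 1 : ℕ) : ℝ) * (((Wn A).filter (fun n => 0.6 * K ≤ (od d K n : ℝ))).card : ℝ) ≤
        ((K + 1 : ℕ) : ℝ) * (1 / (Real.log z) ^ B * (A / (2 * 3 ^ m))) :=
      mul_le_mul_of_nonneg_left hL (Nat.cast_nonneg _)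
    refine (add_le_add h2 h3).trans (le_of_eq ?_)
    push_cast
    field_simp
    ring
  · intro u v hu
    have h1 := base_sum hd hz hKd hcl (fun _ => Mv d A₀ z z' K) 1 K (z' := z') (A₀ := A₀)
      (fun r hr x hx => by
        have : r = 0 := by omega
        subst this
        simpa using hx) m u v
    rw [if_neg (by omega), if_pos le_rfl] at h1
    refine h1.trans ?_
    push_cast
    linarith

end Pool.Agent.W5h24.BC
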