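import Pool.Agent.W5h24.BC.B

set_option autoImplicit false

/-! # Visits of a set, part C: all scales above a block -/

namespace Pool.Agent.W5h24.BC

open Finset
open Pool.Agent.H320R2.PD Pool.Agent.H499R2.ND
open Pool.Agent.H499R2.CO (Tz)
open Pool.Agent.R344.SP Pool.Agent.R344.TH

/-- the one-stage inequality for one class -/
theorem starA {d : ℤ} (hd : Odd d) (hd3 : IsCoprime d 3) {S : Set ℤ} {Z : ℝ} (hZ : |(d : ℝ)| ≤ Z)
    (hS : FwdA d Z S) {A : ℝ} (hA : 0 < A) {k m m' : ℕ} (hk : 1 ≤ k) (hm' : m' ≤ k)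
    (hAZ : 2 ^ (41 * k / 20) * Z ≤ A) (c : ℤ) :
    ((cls S A (2 * A) m 1 c).card : ℝ) ≤
      (∑ w ∈ GW (3 * k) k ((39 * k + 19) / 20) (41 * k / 20),
        ((cls S (A * 3 ^ k / 2 ^ w.sum) (2 * (A * 3 ^ k / 2 ^ w.sum)) m' (2 ^ w.sum) (d * Wo w)).card : ℝ))
        / 3 ^ (k + m - m') + Err d A k m m' * (A / (2 * 3 ^ m)) := by
  have hZ0 : 0 ≤ Z := (abs_nonneg _).trans hZ
  have hTm : 41 * k / 20 ≤ k * (3 * k) := by nlinarith [Nat.div_mul_le_self (41 * k) 20]
  have h1 := starG hd hd3 (S := S) (fun _ => S) hA.le (3 * k) k m m' ((39 * k + 19) / 20) (41 * k / 20)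
    (by
      intro w hw M x hM hx hAM _ hMS hV
      unfold GW at hw
      rw [mem_filter] at hw
      apply path_memA hd hZ hS w (FW_props hw.1).2 M x hM hx _ hMS hV
      refine le_trans ?_ hAM
      refine le_trans ?_ hAZ
      apply mul_le_mul_of_nonneg_right _ hZ0
      exact pow_le_pow_right₀ (by norm_num) hw.2.2) hk hm' hTm c
  set G := GW (3 * k) k ((39 * k + 19) / 20) (41 * k / 20) with hG
  have hfac : A / (2 * 3 ^ m) * (2 * 3 ^ m / A) = 1 := by
    field_simp
  have hEq : Err d A k m m' * (A / (2 * 3 ^ m)) =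
      (A / (2 * 3 ^ m) + 2 ^ (41 * k / 20))
          * (∑ T ∈ range (k * (3 * k) + 1), dev (FWT (3 * k) k T) wwt (fun w => (Wo w : ℤ)) (k + m) m')
      + A / (2 * 3 ^ m) * (1 - ∑ w ∈ G, wwt w) + 1 + (|(d : ℝ)| + 2) * 2 ^ (41 * k / 20) := by
    unfold Err
    rw [← hG]
    set δ := ∑ T ∈ range (k * (3 * k) + 1), dev (FWT (3 * k) k T) wwt (fun w => (Wo w : ℤ)) (k + m) m'
    set X := (2 : ℝ) ^ (41 * k / 20)
    set Y := A / (2 * 3 ^ m) with hY
    set Z' := 2 * 3 ^ m / A with hZ'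
    set μ := ∑ w ∈ G, wwt w
    have : ((1 + X * Z') * δ + (1 - μ) + (1 + (|(d : ℝ)| + 2) * X) * Z') * Y
        = (Y + X * (Y * Z')) * δ + Y * (1 - μ) + (1 + (|(d : ℝ)| + 2) * X) * (Y * Z') := by ring
    rw [this, hfac]
    ring
  rw [hEq]
  linarith

/-- classes -/
theorem cls_rep (m : ℕ) {u : ℤ} (hu : IsCoprime u 3) (v : ℤ) :
    ∃ c : ℤ, ∀ (S : Set ℤ) (a b : ℝ), cls S a b m u v = cls S a b m 1 c := by
  obtain ⟨p, q, hpq⟩ : IsCoprime u ((3 : ℤ) ^ m) := hu.pow_right
  refine ⟨p * v, fun S a b => ?_⟩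
  ext x
  rw [mem_cls, mem_cls]
  have key : (3 : ℤ) ^ m ∣ u * x - v ↔ (3 : ℤ) ^ m ∣ 1 * x - p * v := by
    have hcop : IsCoprime ((3 : ℤ) ^ m) u := ⟨q, p, by linarith⟩
    have h1 : u * p = 1 - q * 3 ^ m := by linarith
    constructor
    · intro h
      apply hcop.dvd_of_dvd_mul_left
      have : u * (1 * x - p * v) = (u * x - v) + 3 ^ m * (q * v) := by
        calc u * (1 * x - p * v) = u * x - (u * p) * v := by ring
          _ = _ := by rw [h1]; ring
      rw [this]
      exact dvd_add h (dvd_mul_right _ _)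
    · intro h
      have : u * x - v = u * (1 * x - p * v) - 3 ^ m * (q * v) := by
        have h2 : u * (1 * x - p * v) = u * x - (u * p) * v := by ring
        rw [h2, h1]; ring
      rw [this]
      exact dvd_sub (dvd_mul_of_dvd_right h _) (dvd_mul_right _ _)
  rw [key]

/-- one stage for families -/
theorem stageF {d : ℤ} (hd : Odd d) (hd3 : IsCoprime d 3) {S : ℕ → Set ℤ} {Λ : ℕ} {Z : ℝ}
    (hZ : |(d : ℝ)| ≤ Z) (hS : ∀ r, FwdA d Z (S r)) {A : ℝ} (hA : 0 < A) {k m m' : ℕ} (hk : 1 ≤ k)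
    (hm' : m' ≤ k) (hAZ : 2 ^ (41 * k / 20) * Z ≤ A) {ρ : ℝ} (hρ : 0 ≤ ρ)
    (h : ∀ T : ℕ, 39 * k ≤ 20 * T → 20 * T ≤ 41 * k → PBF S Λ (A * 3 ^ k / 2 ^ T) m' ρ) :
    PBF S Λ A m (ρ + Λ * Err d A k m m') := by
  intro u v hu
  obtain ⟨c, hc⟩ := cls_rep m hu v
  set G := GW (3 * k) k ((39 * k + 19) / 20) (41 * k / 20) with hG
  have h1 : ∑ r ∈ range Λ, ((cls (S r) A (2 * A) m u v).card : ℝ) ≤ ∑ r ∈ range Λ,
      ((∑ w ∈ G, ((cls (S r) (A * 3 ^ k / 2 ^ w.sum) (2 * (A * 3 ^ k / 2 ^ w.sum)) m'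
            (2 ^ w.sum) (d * Wo w)).card : ℝ)) / 3 ^ (k + m - m') + Err d A k m m' * (A / (2 * 3 ^ m))) := by
    apply sum_le_sum
    intro r _
    rw [hc]
    exact starA hd hd3 hZ (hS r) hA hk hm' hAZ c
  refine h1.trans ?_
  rw [sum_add_distrib, ← sum_div, sum_comm]
  have h2 : ∑ w ∈ G, ∑ r ∈ range Λ, ((cls (S r) (A * 3 ^ k / 2 ^ w.sum) (2 * (A * 3 ^ k / 2 ^ w.sum)) m'
            (2 ^ w.sum) (d * Wo w)).card : ℝ) ≤ ∑ w ∈ G, ρ * (A * 3 ^ k / (2 * 3 ^ m')) * wwt w := by
    apply sum_le_sum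
    intro w hw
    rw [hG] at hw; unfold GW at hw; rw [mem_filter] at hw
    have h3 := h w.sum (by omega) (by omega) (2 ^ w.sum) (d * Wo w) (cop_two_pow _)
    refine h3.trans (le_of_eq ?_)
    unfold wwt
    rw [one_div, inv_pow]
    field_simp
  have hmass1 : ∑ w ∈ G, wwt w ≤ 1 := by
    refine le_trans ?_ (sum_wwt_le (3 * k) k)
    rw [hG]; unfold GW
    apply sum_le_sum_of_subset_of_nonneg (filter_subset _ _)
    intro w _ _; unfold wwt; positivity
  rw [← mul_sum] at h2
  have h4 : (∑ w ∈ G, ∑ r ∈ range Λ, ((cls (S r) (A * 3 ^ k / 2 ^ w.sum) (2 * (A * 3 ^ k / 2 ^ w.sum)) m'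
            (2 ^ w.sum) (d * Wo w)).card : ℝ)) / 3 ^ (k + m - m') ≤ ρ * (A / (2 * 3 ^ m)) := by
    rw [div_le_iff₀ (by positivity)]
    refine h2.trans ?_
    have h5 : ρ * (A * 3 ^ k / (2 * 3 ^ m')) * ∑ w ∈ G, wwt w ≤ ρ * (A * 3 ^ k / (2 * 3 ^ m')) * 1 :=
      mul_le_mul_of_nonneg_left hmass1 (by positivity)
    refine h5.trans (le_of_eq ?_)
    have h6 : (3 : ℝ) ^ (k + m - m') * 3 ^ m' = 3 ^ k * 3 ^ m := by
      rw [← pow_add, ← pow_add]; congr 1; omega
    have h7 : (3 : ℝ) ^ k = 3 ^ (k + m - m') * 3 ^ m' / 3 ^ m := by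
      rw [h6]; field_simp
    rw [h7]
    field_simp
  rw [sum_const, card_range, nsmul_eq_mul]
  have e : (ρ + Λ * Err d A k m m') * (A / (2 * 3 ^ m)) = ρ * (A / (2 * 3 ^ m)) +
      Λ * (Err d A k m m' * (A / (2 * 3 ^ m))) := by ring
  rw [e]
  exact add_le_add h4 le_rfl

/-- all scales above a block -/
theorem all_scales {d : ℤ} (hd : Odd d) (hd3 : IsCoprime d 3) (B : ℕ) (hB : 1 ≤ B) :
    ∃ l₀ C : ℝ, 0 < l₀ ∧ 0 < C ∧ ∀ z z' : ℝ, 0 < z → l₀ ≤ Real.log z → z ≤ z' →
      Real.log z' ≤ Real.log z + 2 * Real.sqrt (Real.log z) → ∀ (Λ : ℕ) (S : ℕ → Set ℤ) (ρ : ℝ), 0 ≤ ρ →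
      (∀ r, FwdA d z' (S r)) →
      (∀ A : ℝ, z / 2 ≤ A → Real.log A ≤ Real.log z + 6 * Real.sqrt (Real.log z) → ∀ m : ℕ,
        (m : ℝ) ≤ (Real.log A) ^ (1 / 4 : ℝ) → PBF S Λ A m ρ) →
      ∀ A : ℝ, z / 2 ≤ A → ∀ m : ℕ, (m : ℝ) ≤ (Real.log A) ^ (1 / 4 : ℝ) →
        PBF S Λ A m (ρ + Λ * (C / (Real.log z) ^ B)) := by
  obtain ⟨C, hC, herr⟩ := err_bound2 (γ := 1 / 2) (by norm_num) le_rfl (B + 1) d
  refine ⟨max 1000 |(d : ℝ)|, 2 * C, by positivity, by positivity, ?_⟩
  intro z z' hz hl hzz hz'l Λ S ρ hρ hS hbase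
  set l := Real.log z with hldef
  have hl1000 : 1000 ≤ l := (le_max_left _ _).trans hl
  have hld : |(d : ℝ)| ≤ l := (le_max_right _ _).trans hl
  have hl0 : 0 < l := by linarith
  have hexpz : Real.exp l = z := Real.exp_log hz
  have hz'0 : 0 < z' := by linarith
  have hdz : |(d : ℝ)| ≤ z' := by
    refine le_trans ?_ hzz
    rw [← hexpz]; linarith [Real.add_one_le_exp l]
  have hln2a := Real.log_two_gt_d9
  have hln2b := Real.log_two_lt_d9
  have hplB : 0 < l ^ B := by positivity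
  have hΛ0 : (0 : ℝ) ≤ Λ := Nat.cast_nonneg _
  have hmono : ∀ s : ℝ, l ≤ s → 1 / s ^ B ≤ 1 / l ^ B := fun s hs =>
    one_div_le_one_div_of_le hplB (pow_le_pow_left₀ hl0.le hs B)
  have hnn : ∀ s : ℝ, l ≤ s → 0 ≤ Λ * (C * (2 * (1 / l ^ B) - 1 / s ^ B)) := by
    intro s hs
    have h2 := hmono _ hs
    have : 0 < 1 / l ^ B := by positivity
    exact mul_nonneg hΛ0 (mul_nonneg hC.le (by linarith))
  have hsl : 31 ≤ Real.sqrt l := by
    apply Real.le_sqrt_of_sq_le; linarith
  have main : ∀ n : ℕ, ∀ A : ℝ, 0 < A → l ≤ Real.log A → Real.log A ≤ l + n → ∀ m : ℕ,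
      (m : ℝ) ≤ (Real.log A) ^ (1 / 4 : ℝ) →
        PBF S Λ A m (ρ + Λ * (C * (2 * (1 / l ^ B) - 1 / (Real.log A) ^ B))) := by
    intro n
    induction n with
    | zero =>
      intro A hA hlA hAn m hm
      rw [Nat.cast_zero, add_zero] at hAn
      have hAz : z / 2 ≤ A := by
        have : z ≤ A := by
          rw [← hexpz, ← Real.exp_log hA]; exact Real.exp_le_exp.2 hlA
        linarith
      refine (hbase A hAz (by linarith) m hm).mono hA.le ?_
      linarith [hnn _ hlA]
    | succ n ih =>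
      intro A hA hlA hAn m hm
      set t := Real.log A with htdef
      have ht0 : 0 < t := by linarith
      have hexpA : Real.exp t = A := Real.exp_log hA
      have hAz : z / 2 ≤ A := by
        have : z ≤ A := by
          rw [← hexpz, ← hexpA]; exact Real.exp_le_exp.2 hlA
        linarith
      rcases le_or_gt t (l + 6 * Real.sqrt l) with hcase | hcase
      · refine (hbase A hAz hcase m hm).mono hA.le ?_
        linarith [hnn _ hlA]
      · obtain ⟨k, hk⟩ : ∃ k : ℕ, k = ⌊t ^ (1 / 2 : ℝ)⌋₊ := ⟨_, rfl⟩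
        obtain ⟨m', hm'⟩ : ∃ m' : ℕ, m' = ⌊(0.9 * t) ^ (1 / 2 / 2 : ℝ)⌋₊ := ⟨_, rfl⟩
        have ht1000 : 1000 ≤ t := by linarith
        have h14 : (1 / 4 : ℝ) = 1 / 2 / 2 := by norm_num
        set r := t ^ (1 / 2 / 2 : ℝ) with hr
        have hst : t ^ (1 / 2 : ℝ) = Real.sqrt t := (Real.sqrt_eq_rpow t).symm
        have hrsq : r ^ 2 = Real.sqrt t := by
          rw [hr, ← hst, ← Real.rpow_natCast, ← Real.rpow_mul ht0.le]; norm_num
        have hr0 : 0 < r := by positivity
        have hs31 : 31 ≤ Real.sqrt t := by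
          apply Real.le_sqrt_of_sq_le; linarith
        have hr4 : 4 ≤ r := by
          by_contra hcon
          push Not at hcon
          nlinarith
        have hsq31 : Real.sqrt t ≤ t / 31 := by
          rw [Real.sqrt_le_left (by positivity)]
          nlinarith
        have hk1 : (k : ℝ) ≤ Real.sqrt t := by rw [hk, hst]; exact Nat.floor_le (by positivity)
        have hk2 : Real.sqrt t - 1 ≤ k := by
          rw [hk, hst]; linarith [Nat.lt_floor_add_one (Real.sqrt t)]
        have hk15 : (15 : ℝ) ≤ k := by linarith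
        have hk1N : 1 ≤ k := by
          have : (1 : ℝ) ≤ k := by linarith
          exact_mod_cast this
        have hm'2 : (m' : ℝ) ≤ r := by
          rw [hm']
          refine (Nat.floor_le (by positivity)).trans ?_
          exact Real.rpow_le_rpow (by positivity) (by linarith) (by positivity)
        have hm'k : m' ≤ k := by
          have : (m' : ℝ) ≤ k := by nlinarith
          exact_mod_cast this
        -- the room between `t` and `l`
        have hroom : l + 2 * Real.sqrt l + 1.43 * Real.sqrt t + 0.7 ≤ t := by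
          rcases le_or_gt t (4 * l) with h4 | h4
          · have e1 : Real.sqrt t ≤ 2 * Real.sqrt l := by
              rw [Real.sqrt_le_left (by positivity), mul_pow, Real.sq_sqrt hl0.le]
              linarith
            linarith
          · have e1 : Real.sqrt l ≤ Real.sqrt t := Real.sqrt_le_sqrt hlA
            linarith
        have hpath : (2 : ℝ) ^ (41 * k / 20) * z' ≤ A := by
          have e1 : (2 : ℝ) ^ (41 * k / 20) = Real.exp (((41 * k / 20 : ℕ) : ℝ) * Real.log 2) := by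
            rw [Real.exp_nat_mul, Real.exp_log (by norm_num)]
          rw [e1, ← Real.exp_log hz'0, ← hexpA, ← Real.exp_add]
          apply Real.exp_le_exp.2
          have e3 : 20 * (41 * k / 20) ≤ 41 * k := Nat.mul_div_le _ _
          have e4 : (20 : ℝ) * ((41 * k / 20 : ℕ) : ℝ) ≤ 41 * k := by exact_mod_cast e3
          have e5 : ((41 * k / 20 : ℕ) : ℝ) * Real.log 2 ≤ (41 / 20 * Real.sqrt t) * 0.6931471808 :=
            mul_le_mul (by linarith) hln2b.le (by linarith) (by positivity)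
          have e6 : 0 < Real.sqrt t := by positivity
          nlinarith
        have hE := herr A hA ht1000 (by rw [← htdef, ← hr]; exact hr4) k m m' (by rw [← htdef, ← h14]; exact hm)
          hk hm'
        rw [← htdef] at hE
        have ht1l : l ≤ t - 1 := by
          have : 0 < Real.sqrt t := by positivity
          have := Real.sqrt_nonneg l
          linarith
        have hρ' : 0 ≤ ρ + Λ * (C * (2 * (1 / l ^ B) - 1 / (t - 1) ^ B)) := by
          linarith [hnn _ ht1l]
        have hst := stageF hd hd3 (Z := z') hdz hS hA hk1N hm'k (m := m) hpath hρ' (by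
          intro T hT1 hT2
          have hn := next_scale2 hA hT1 hT2
          rw [← htdef] at hn
          have hA'pos : 0 < A * 3 ^ k / 2 ^ T := by positivity
          have hge : l ≤ Real.log (A * 3 ^ k / 2 ^ T) := by
            have : 0 < Real.sqrt t := by positivity
            have := Real.sqrt_nonneg l
            linarith [hn.1]
          have hih := ih (A * 3 ^ k / 2 ^ T) hA'pos hge (by
              push_cast at hAn
              linarith [hn.2]) m' (by
              rw [hm', h14]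
              refine (Nat.floor_le (by positivity)).trans ?_
              apply Real.rpow_le_rpow (by positivity) _ (by positivity)
              linarith [hn.1])
          refine hih.mono hA'pos.le ?_
          apply add_le_add_right
          apply mul_le_mul_of_nonneg_left _ hΛ0
          apply mul_le_mul_of_nonneg_left _ hC.le
          have : 1 / (t - 1) ^ B ≤ 1 / Real.log (A * 3 ^ k / 2 ^ T) ^ B :=
            one_div_le_one_div_of_le (pow_pos (by linarith) B)
              (pow_le_pow_left₀ (by linarith) (by linarith [hn.2]) B)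
          linarith)
        refine hst.mono hA.le ?_
        have e1 := pow_step B hB (t := t) (by linarith)
        have e2 := mul_le_mul_of_nonneg_left e1 hC.le
        have e3 : C / t ^ (B + 1) = C * (1 / t ^ (B + 1)) := by ring
        rw [e3] at hE
        have e4 : C * (2 * (1 / l ^ B) - 1 / (t - 1) ^ B) + Err d A k m m' ≤
            C * (2 * (1 / l ^ B) - 1 / t ^ B) := by
          rw [mul_sub, mul_sub]
          linarith
        have e5 := mul_le_mul_of_nonneg_left e4 hΛ0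
        rw [mul_add] at e5
        linarith
  intro A hAz m hm
  have hA : 0 < A := by linarith
  have hfin : ρ + Λ * (2 * C / l ^ B) = ρ + Λ * (C * (2 * (1 / l ^ B))) := by ring
  rcases le_or_gt l (Real.log A) with hc | hc
  · obtain ⟨n, hn⟩ := exists_nat_ge (Real.log A - l)
    refine (main n A hA hc (by linarith) m hm).mono hA.le ?_
    rw [hfin]
    apply add_le_add_right
    apply mul_le_mul_of_nonneg_left _ hΛ0
    apply mul_le_mul_of_nonneg_left _ hC.le
    have e1 : 0 < 1 / (Real.log A) ^ B := by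
      have : 0 < Real.log A := by linarith
      positivity
    linarith
  · refine (hbase A hAz (by
      have : 0 ≤ Real.sqrt l := Real.sqrt_nonneg l
      linarith) m hm).mono hA.le ?_
    have : 0 ≤ Λ * (2 * C / l ^ B) := by positivity
    linarith

end Pool.Agent.W5h24.BC
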