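import Pool.Agent.W5h24.BC.C

set_option autoImplicit false

/-! # Visits of a set, part D: the count of the odd integers for one block -/

namespace Pool.Agent.W5h24.BC

open Finset
open Pool.Agent.H320R2.PD Pool.Agent.H499R2.ND
open Pool.Agent.H499R2.CO (Tz)
open Pool.Agent.R344.SP Pool.Agent.R344.TH

open scoped Classical in
/-- odd elements up to `X` of a set -/
noncomputable def OD (S : Set ℤ) (X : ℝ) : Finset ℤ :=
  (Icc (1 : ℤ) ⌊X⌋).filter (fun x => Odd x ∧ x ∈ S)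

theorem mem_OD {S : Set ℤ} {X : ℝ} {x : ℤ} : x ∈ OD S X ↔ (1 ≤ x ∧ (x : ℝ) ≤ X) ∧ Odd x ∧ x ∈ S := by
  classical
  unfold OD
  rw [mem_filter, Finset.mem_Icc, Int.le_floor]

/-- odd elements up to `X` -/
theorem odd_countF {S : ℕ → Set ℤ} {Λ : ℕ} {z ρ X : ℝ} (hρ : 0 ≤ ρ) (hS : ∀ r, ∀ x ∈ S r, z ≤ (x : ℝ))
    (hPB : ∀ A : ℝ, z / 2 ≤ A → PBF S Λ A 0 ρ) (hX : 0 < X) :
    ∑ r ∈ range Λ, ((OD (S r) X).card : ℝ) ≤ ρ * X := by
  classical
  obtain ⟨J, hJ⟩ : ∃ J : ℕ, X < 2 ^ J := pow_unbounded_of_one_lt X (by norm_num)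
  have hsub : ∀ r, OD (S r) X ⊆
      (range (J + 1)).biUnion (fun j => cls (S r) (X * (1 / 2) ^ j) (2 * (X * (1 / 2) ^ j)) 0 1 0) := by
    intro r x hx
    rw [mem_OD] at hx
    obtain ⟨⟨hx1, hx2⟩, hx3, hx4⟩ := hx
    have hx1R : (1 : ℝ) ≤ x := by exact_mod_cast hx1
    have hx0 : (0 : ℝ) < x := by linarith
    obtain ⟨i, hi1, hi2⟩ := exists_nat_pow_near (x := 2 * X / (x : ℝ)) (y := 2)
      (by rw [le_div_iff₀ hx0]; linarith) (by norm_num)
    rw [le_div_iff₀ hx0] at hi1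
    rw [div_lt_iff₀ hx0] at hi2
    rw [mem_biUnion]
    have hiJ : i < J + 1 := by
      by_contra hcon
      push Not at hcon
      have h1 : (2 : ℝ) ^ (J + 1) ≤ 2 ^ i := pow_le_pow_right₀ (by norm_num) hcon
      rw [pow_succ] at h1
      nlinarith
    have h2i : (0 : ℝ) < 2 ^ i := by positivity
    have hhalf : ((1 / 2 : ℝ)) ^ i = 1 / 2 ^ i := by rw [div_pow, one_pow]
    rcases eq_or_lt_of_le hi1 with heq | hlt
    · rcases Nat.eq_zero_or_pos i with rfl | hi0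
      · exfalso
        rw [pow_zero, one_mul] at heq; linarith
      · refine ⟨i - 1, mem_range.2 (by omega), ?_⟩
        obtain ⟨i', rfl⟩ : ∃ i', i = i' + 1 := ⟨i - 1, by omega⟩
        rw [Nat.add_sub_cancel, mem_cls]
        have h2i' : (0 : ℝ) < 2 ^ i' := by positivity
        have hhalf' : ((1 / 2 : ℝ)) ^ i' = 1 / 2 ^ i' := by rw [div_pow, one_pow]
        rw [pow_succ] at heq
        rw [hhalf']
        refine ⟨⟨?_, ?_⟩, hx3, hx4, by simp⟩
        · rw [mul_one_div, div_le_iff₀ h2i']; linarith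
        · rw [mul_one_div, ← mul_div_assoc, lt_div_iff₀ h2i']; nlinarith
    · refine ⟨i, mem_range.2 hiJ, ?_⟩
      rw [mem_cls, hhalf]
      rw [pow_succ] at hi2
      refine ⟨⟨?_, ?_⟩, hx3, hx4, by simp⟩
      · rw [mul_one_div, div_le_iff₀ h2i]; linarith
      · rw [mul_one_div, ← mul_div_assoc, lt_div_iff₀ h2i]; linarith
  have h1 : ∑ r ∈ range Λ, ((OD (S r) X).card : ℝ) ≤ ∑ r ∈ range Λ, ∑ j ∈ range (J + 1),
      ((cls (S r) (X * (1 / 2) ^ j) (2 * (X * (1 / 2) ^ j)) 0 1 0).card : ℝ) := by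
    apply sum_le_sum
    intro r _
    have := (card_le_card (hsub r)).trans card_biUnion_le
    exact_mod_cast this
  refine h1.trans ?_
  rw [sum_comm]
  have h2 : ∀ j ∈ range (J + 1), ∑ r ∈ range Λ,
      ((cls (S r) (X * (1 / 2) ^ j) (2 * (X * (1 / 2) ^ j)) 0 1 0).card : ℝ)
      ≤ ρ * X / 2 * (1 / 2) ^ j := by
    intro j _
    rcases le_or_gt (z / 2) (X * (1 / 2) ^ j) with hc | hc
    · refine (hPB _ hc 1 0 isCoprime_one_left).trans (le_of_eq ?_)
      rw [pow_zero]; ring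
    · have : ∀ r ∈ range Λ, ((cls (S r) (X * (1 / 2) ^ j) (2 * (X * (1 / 2) ^ j)) 0 1 0).card : ℝ) = 0 := by
        intro r _
        rw [Nat.cast_eq_zero, card_eq_zero, Finset.eq_empty_iff_forall_notMem]
        intro x hx
        rw [mem_cls] at hx
        have := hS r x hx.2.2.1
        linarith [hx.1.2]
      rw [sum_eq_zero this]
      positivity
  refine (sum_le_sum h2).trans ?_
  rw [← mul_sum]
  have h3 := geom_half (J + 1)
  calc ρ * X / 2 * ∑ j ∈ range (J + 1), (1 / 2 : ℝ) ^ j ≤ ρ * X / 2 * 2 :=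
        mul_le_mul_of_nonneg_left h3 (by positivity)
    _ = ρ * X := by ring

/-- the number of visits of the block `i` which are counted -/
noncomputable def KK (i : ℕ) : ℕ := ⌈400 * Real.sqrt (Real.log ((2 : ℝ) ^ (i ^ 2)))⌉₊

theorem log_zi (i : ℕ) : Real.log ((2 : ℝ) ^ (i ^ 2)) = (i : ℝ) ^ 2 * Real.log 2 := by
  rw [Real.log_pow]; push_cast; ring

theorem sqrt_zi (i : ℕ) : Real.sqrt (Real.log ((2 : ℝ) ^ (i ^ 2))) = i * Real.sqrt (Real.log 2) := by
  rw [log_zi, Real.sqrt_mul (by positivity), Real.sqrt_sq (Nat.cast_nonneg i)]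

theorem sqrt_log2_lt : Real.sqrt (Real.log 2) < 0.833 := by
  rw [Real.sqrt_lt' (by norm_num)]
  have := Real.log_two_lt_d9
  norm_num
  linarith

theorem sqrt_log2_gt : 0.832 < Real.sqrt (Real.log 2) := by
  apply Real.lt_sqrt_of_sq_lt
  have := Real.log_two_gt_d9
  norm_num
  linarith

theorem KK_le (i : ℕ) (hi : 1 ≤ i) : (KK i : ℝ) ≤ 400 * i := by
  unfold KK
  rw [sqrt_zi]
  have hi' : (1 : ℝ) ≤ i := by exact_mod_cast hi
  have h1 := (Nat.ceil_lt_add_one (a := 400 * ((i : ℝ) * Real.sqrt (Real.log 2))) (by positivity)).le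
  have h2 := sqrt_log2_lt
  nlinarith

/-- the count for one block -/
theorem block {d : ℤ} (hd : Odd d) (hd3 : IsCoprime d 3) (B : ℕ) : ∃ (i₀ : ℕ) (C : ℝ), 1 ≤ i₀ ∧ 0 < C ∧
    ∀ i : ℕ, i₀ ≤ i → ∀ (A₀ : Set ℤ) (δ : ℝ), 0 ≤ δ →
      (∀ W : ℝ, ∀ M ≤ 403 * i, ∀ c : ℤ, 0 ≤ W → ((fc A₀ (2 ^ (i ^ 2)) W M c).card : ℝ) ≤ δ * (W / 3 ^ M)) →
      ∀ X : ℝ, 0 < X →
        ∑ r ∈ range (KK i + 1), ((OD (Mv d A₀ (2 ^ (i ^ 2)) (2 ^ ((i + 1) ^ 2)) r) X).card : ℝ) ≤
          (C * i * δ + C / (i : ℝ) ^ B) * X ∧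
        ((OD (Mv d A₀ (2 ^ (i ^ 2)) (2 ^ ((i + 1) ^ 2)) (KK i)) X).card : ℝ) ≤ C / (i : ℝ) ^ B * X := by
  have hd2 : d % 2 = 1 := Int.odd_iff.1 hd
  obtain ⟨l₁, hl₁, hb⟩ := base_PBF hd2 (B + 1)
  obtain ⟨l₂, C, hl₂, hC, ha⟩ := all_scales hd hd3 (B + 1) (by omega)
  obtain ⟨i₀, hi₀⟩ := exists_nat_ge (max (max l₁ l₂) 10)
  refine ⟨i₀ + 3, 3200 + 401 * (1 + C) * 2 ^ (B + 1), by omega, by positivity, ?_⟩
  intro i hi A₀ δ hδ hA₀ X hX
  have hiR : max (max l₁ l₂) 10 ≤ i := by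
    refine hi₀.trans ?_
    exact_mod_cast (by omega : i₀ ≤ i)
  have hi10 : (10 : ℝ) ≤ i := (le_max_right _ _).trans hiR
  have hi0 : (0 : ℝ) < i := by linarith
  set z : ℝ := (2 : ℝ) ^ (i ^ 2) with hz
  set z' : ℝ := (2 : ℝ) ^ ((i + 1) ^ 2) with hz'
  have hz0 : 0 < z := by positivity
  have hl : Real.log z = (i : ℝ) ^ 2 * Real.log 2 := log_zi i
  have hln2a := Real.log_two_gt_d9
  have hln2b := Real.log_two_lt_d9
  have hli : (i : ℝ) ^ 2 / 2 ≤ Real.log z := by rw [hl]; nlinarith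
  have hli2 : (i : ℝ) ≤ Real.log z := by nlinarith
  have hlz1 : l₁ ≤ Real.log z := ((le_max_left _ _).trans ((le_max_left _ _).trans hiR)).trans hli2
  have hlz2 : l₂ ≤ Real.log z := ((le_max_right _ _).trans ((le_max_left _ _).trans hiR)).trans hli2
  have hs : Real.sqrt (Real.log z) = i * Real.sqrt (Real.log 2) := sqrt_zi i
  have hsa := sqrt_log2_gt
  have hsb := sqrt_log2_lt
  have hzz : z ≤ z' := by
    rw [hz, hz']
    exact pow_le_pow_right₀ (by norm_num) (Nat.pow_le_pow_left (by omega) 2)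
  have hzl : Real.log z' ≤ Real.log z + 2 * Real.sqrt (Real.log z) := by
    have h1 : Real.log z' = ((i : ℝ) + 1) ^ 2 * Real.log 2 := by
      have := log_zi (i + 1)
      push_cast at this
      exact this
    rw [h1, hl, ← hl, hs, hl]
    nlinarith
  have hz'0 : 0 < z' := by positivity
  have hM : 403 * Real.sqrt (Real.log z) ≤ ((403 * i : ℕ) : ℝ) := by
    rw [hs]; push_cast; nlinarith
  set K := KK i with hK
  have hKd : K = ⌈400 * Real.sqrt (Real.log z)⌉₊ := rfl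
  have hbase := hb z hz0 hlz1 K hKd z' δ A₀ (403 * i) hδ hM hA₀
  have hK1 : (K : ℝ) ≤ 400 * i := KK_le i (by omega)
  have hl0 : 0 < Real.log z := by linarith
  -- the error
  have hE : 1 / (Real.log z) ^ (B + 1) ≤ 2 ^ (B + 1) / ((i : ℝ) ^ B * i) := by
    have h1 : ((i : ℝ) / 2 * i) ^ (B + 1) ≤ (Real.log z) ^ (B + 1) := by
      apply pow_le_pow_left₀ (by positivity)
      linarith
    have h2 : (i : ℝ) ^ B * i / 2 ^ (B + 1) ≤ ((i : ℝ) / 2 * i) ^ (B + 1) := by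
      have h3 : ((i : ℝ) / 2 * i) ^ (B + 1) = (i : ℝ) ^ B * i / 2 ^ (B + 1) * (i : ℝ) ^ (B + 1) := by
        rw [mul_pow, div_pow, pow_succ]
      rw [h3]
      apply le_mul_of_one_le_right (by positivity)
      apply one_le_pow₀
      linarith
    rw [div_le_div_iff₀ (by positivity) (by positivity), one_mul]
    have h4 := h2.trans h1
    rw [div_le_iff₀ (by positivity)] at h4
    linarith
  have hiB : 0 < (i : ℝ) ^ B := by positivity
  constructor
  · have h1 := odd_countF (S := Mv d A₀ z z') (Λ := K + 1) (z := z)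
      (ρ := (8 * K * δ + (K + 1) * (1 / (Real.log z) ^ (B + 1))) +
        ((K + 1 : ℕ) : ℝ) * (C / (Real.log z) ^ (B + 1))) (by positivity) (fun r x hx => Mv_ge hx)
      (fun A hA => ha z z' hz0 hlz2 hzz hzl (K + 1) (Mv d A₀ z z')
        (8 * K * δ + (K + 1) * (1 / (Real.log z) ^ (B + 1))) (by positivity)
        (fun r => Mv_fwd hd2 hz'0 r) (fun A' hA' hA'' m hm => (hbase A' hA' hA'' m hm).1) A hA 0 (by
          rw [Nat.cast_zero]
          by_cases h0 : 0 ≤ Real.log A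
          · exact Real.rpow_nonneg h0 _
          · exfalso
            apply h0
            apply Real.log_nonneg
            have h5 : (2 : ℝ) ≤ z := by
              rw [hz]
              calc (2 : ℝ) = 2 ^ 1 := (pow_one _).symm
                _ ≤ 2 ^ (i ^ 2) := pow_le_pow_right₀ (by norm_num) (Nat.one_le_iff_ne_zero.2 (by
                  have : 1 ≤ i := by omega
                  positivity))
            linarith)) hX
    refine h1.trans ?_
    apply mul_le_mul_of_nonneg_right _ hX.le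
    push_cast
    have e1 : 8 * (K : ℝ) * δ ≤ 8 * (400 * i) * δ := by gcongr
    have e2 : ((K : ℝ) + 1) * (1 / (Real.log z) ^ (B + 1)) * (1 + C) ≤
        (401 * i) * (2 ^ (B + 1) / ((i : ℝ) ^ B * i)) * (1 + C) := by
      gcongr
      linarith
    have e3 : (401 * (i : ℝ)) * (2 ^ (B + 1) / ((i : ℝ) ^ B * i)) * (1 + C) =
        401 * (1 + C) * 2 ^ (B + 1) / (i : ℝ) ^ B := by
      field_simp
    have e4 : (0 : ℝ) ≤ 401 * (1 + C) * 2 ^ (B + 1) * i * δ := by positivity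
    have e5 : (0 : ℝ) ≤ 3200 / (i : ℝ) ^ B := by positivity
    have e6 : (3200 + 401 * (1 + C) * 2 ^ (B + 1)) / (i : ℝ) ^ B = 3200 / (i : ℝ) ^ B +
        401 * (1 + C) * 2 ^ (B + 1) / (i : ℝ) ^ B := by rw [add_div]
    have e7 : ((K : ℝ) + 1) * (C / (Real.log z) ^ (B + 1)) = ((K : ℝ) + 1) * (1 / (Real.log z) ^ (B + 1)) * C := by
      ring
    rw [e7, e6]
    nlinarith
  · have h1 := odd_countF (S := fun _ => Mv d A₀ z z' K) (Λ := 1) (z := z)
      (ρ := 1 / (Real.log z) ^ (B + 1) + ((1 : ℕ) : ℝ) * (C / (Real.log z) ^ (B + 1))) (by positivity)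
      (fun r x hx => Mv_ge hx)
      (fun A hA => ha z z' hz0 hlz2 hzz hzl 1 (fun _ => Mv d A₀ z z' K)
        (1 / (Real.log z) ^ (B + 1)) (by positivity)
        (fun r => Mv_fwd hd2 hz'0 K) (fun A' hA' hA'' m hm => (hbase A' hA' hA'' m hm).2) A hA 0 (by
          rw [Nat.cast_zero]
          by_cases h0 : 0 ≤ Real.log A
          · exact Real.rpow_nonneg h0 _
          · exfalso
            apply h0
            apply Real.log_nonneg
            have h5 : (2 : ℝ) ≤ z := by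
              rw [hz]
              calc (2 : ℝ) = 2 ^ 1 := (pow_one _).symm
                _ ≤ 2 ^ (i ^ 2) := pow_le_pow_right₀ (by norm_num) (Nat.one_le_iff_ne_zero.2 (by
                  have : 1 ≤ i := by omega
                  positivity))
            linarith)) hX
    rw [range_one, sum_singleton] at h1
    refine h1.trans ?_
    apply mul_le_mul_of_nonneg_right _ hX.le
    push_cast
    have e2 : (1 / (Real.log z) ^ (B + 1)) * (1 + C) ≤ (2 ^ (B + 1) / ((i : ℝ) ^ B * i)) * (1 + C) := by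
      gcongr
    have e3 : (2 ^ (B + 1) / ((i : ℝ) ^ B * i)) * (1 + C) ≤ (1 + C) * 2 ^ (B + 1) / (i : ℝ) ^ B := by
      rw [div_mul_eq_mul_div, mul_comm ((2 : ℝ) ^ (B + 1))]
      apply div_le_div_of_nonneg_left (by positivity) hiB
      exact le_mul_of_one_le_right hiB.le (by linarith)
    have e6 : (3200 + 401 * (1 + C) * 2 ^ (B + 1)) / (i : ℝ) ^ B = (1 + C) * 2 ^ (B + 1) / (i : ℝ) ^ B +
        (3200 + 400 * (1 + C) * 2 ^ (B + 1)) / (i : ℝ) ^ B := by rw [← add_div]; ring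
    have e5 : (0 : ℝ) ≤ (3200 + 400 * (1 + C) * 2 ^ (B + 1)) / (i : ℝ) ^ B := by positivity
    have e7 : C / (Real.log z) ^ (B + 1) = (1 / (Real.log z) ^ (B + 1)) * C := by ring
    rw [e6, e7]
    linarith

end Pool.Agent.W5h24.BC
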