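import Pool.Agent.W5h24.BC.D

set_option autoImplicit false

/-! # Visits of a set, part E: sums over the blocks -/

namespace Pool.Agent.W5h24.BC

open Finset
open Pool.Agent.H320R2.PD Pool.Agent.H499R2.ND
open Pool.Agent.H499R2.CO (Tz)
open Pool.Agent.R344.SP Pool.Agent.R344.TH

open scoped Classical in
/-- the elements of `A` between `2 ^ j` and `2 ^ (j + 1)` in a class modulo `3 ^ M` -/
noncomputable def dy (A : Set ℤ) (j M : ℕ) (c : ℤ) : Finset ℤ :=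
  (Ico ((2 : ℤ) ^ j) (2 ^ (j + 1))).filter (fun x => x ∈ A ∧ (3 : ℤ) ^ M ∣ x - c)

theorem mem_dy {A : Set ℤ} {j M : ℕ} {c x : ℤ} :
    x ∈ dy A j M c ↔ (2 ^ j ≤ x ∧ x < 2 ^ (j + 1)) ∧ x ∈ A ∧ (3 : ℤ) ^ M ∣ x - c := by
  classical
  unfold dy
  rw [mem_filter, Finset.mem_Ico]

/-- the hypothesis: `A` has density at most `φ j` at the scale `2 ^ j`, `j ≥ j₀`, in all classes modulo
`3 ^ M`, `M ≤ θ j` -/
def Dens (θ : ℝ) (A : Set ℤ) (j₀ : ℕ) (φ : ℕ → ℝ) : Prop :=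
  ∀ j : ℕ, j₀ ≤ j → ∀ M : ℕ, (M : ℝ) ≤ θ * j → ∀ c : ℤ, ((dy A j M c).card : ℝ) ≤ φ j * (2 ^ j / 3 ^ M)

/-- the elements which are at least `2 ^ j₀` -/
def cut (A : Set ℤ) (j₀ : ℕ) : Set ℤ := {x : ℤ | x ∈ A ∧ (2 : ℤ) ^ j₀ ≤ x}

/-- from dyadic scales to all scales -/
theorem fc_le {θ : ℝ} {A : Set ℤ} {j₀ : ℕ} {φ : ℕ → ℝ} (hφ0 : ∀ j, 0 ≤ φ j) (hφ : Antitone φ)
    (h : Dens θ A j₀ φ) (s : ℕ) {M₀ : ℕ} (hM₀ : ∀ j : ℕ, s ≤ j → (M₀ : ℝ) ≤ θ * j) (W : ℝ) (M : ℕ)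
    (hM : M ≤ M₀) (c : ℤ) (hW : 0 ≤ W) :
    ((fc (cut A j₀) (2 ^ s) W M c).card : ℝ) ≤ 2 * φ (max s j₀) * (W / 3 ^ M) := by
  classical
  set j₁ := max s j₀ with hj₁
  rcases lt_or_ge W 1 with hW1 | hW1
  · have : fc (cut A j₀) (2 ^ s) W M c = ∅ := by
      rw [Finset.eq_empty_iff_forall_notMem]
      intro x hx
      rw [mem_fc] at hx
      have h1 : (1 : ℝ) ≤ 2 ^ s := one_le_pow₀ (by norm_num)
      linarith [hx.1.1, hx.1.2]
    rw [this, card_empty, Nat.cast_zero]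
    have := hφ0 j₁
    positivity
  obtain ⟨J, hJ1, hJ2⟩ := exists_nat_pow_near hW1 (by norm_num : (1 : ℝ) < 2)
  have hsub : fc (cut A j₀) (2 ^ s) W M c ⊆ (Ico j₁ (J + 1)).biUnion (fun j => dy A j M c) := by
    intro x hx
    rw [mem_fc] at hx
    obtain ⟨⟨h1, h2⟩, ⟨h3, h4⟩, h5⟩ := hx
    have hx0 : 0 < x := lt_of_lt_of_le (by positivity) h4
    have h1' : (2 : ℤ) ^ s ≤ x := by exact_mod_cast h1
    obtain ⟨y, rfl⟩ := Int.eq_ofNat_of_zero_le hx0.le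
    have hy0 : y ≠ 0 := by
      rintro rfl
      simp at hx0
    rw [mem_biUnion]
    refine ⟨Nat.log 2 y, ?_, ?_⟩
    · rw [Finset.mem_Ico]
      constructor
      · rw [hj₁]
        apply max_le
        · exact Nat.le_log_of_pow_le (by norm_num) (by exact_mod_cast h1')
        · exact Nat.le_log_of_pow_le (by norm_num) (by exact_mod_cast h4)
      · by_contra hcon
        push Not at hcon
        have h6 : 2 ^ (J + 1) ≤ y := (Nat.pow_le_pow_right (by norm_num) hcon).trans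
          (Nat.pow_log_le_self 2 hy0)
        have h7 : (2 : ℝ) ^ (J + 1) ≤ y := by exact_mod_cast h6
        push_cast at h2
        linarith
    · rw [mem_dy]
      refine ⟨⟨?_, ?_⟩, h3, h5⟩
      · exact_mod_cast Nat.pow_log_le_self 2 hy0
      · exact_mod_cast Nat.lt_pow_succ_log_self (by norm_num : 1 < 2) y
  have h1 : ((fc (cut A j₀) (2 ^ s) W M c).card : ℝ) ≤ ∑ j ∈ Ico j₁ (J + 1), ((dy A j M c).card : ℝ) := by
    have := (card_le_card hsub).trans card_biUnion_le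
    exact_mod_cast this
  refine h1.trans ?_
  have h2 : ∀ j ∈ Ico j₁ (J + 1), ((dy A j M c).card : ℝ) ≤ φ j₁ / 3 ^ M * 2 ^ j := by
    intro j hj
    rw [Finset.mem_Ico] at hj
    have hsj : s ≤ j := (le_max_left _ _).trans hj.1
    have hjj : j₀ ≤ j := (le_max_right _ _).trans hj.1
    have hMM : (M : ℝ) ≤ θ * j := by
      have : (M : ℝ) ≤ M₀ := by exact_mod_cast hM
      exact this.trans (hM₀ j hsj)
    refine (h j hjj M hMM c).trans ?_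
    have h3 := hφ hj.1
    calc φ j * (2 ^ j / 3 ^ M) ≤ φ j₁ * (2 ^ j / 3 ^ M) := mul_le_mul_of_nonneg_right h3 (by positivity)
      _ = _ := by ring
  refine (sum_le_sum h2).trans ?_
  rw [← mul_sum]
  have h3 : ∑ j ∈ Ico j₁ (J + 1), (2 : ℝ) ^ j ≤ 2 * W := by
    calc ∑ j ∈ Ico j₁ (J + 1), (2 : ℝ) ^ j ≤ ∑ j ∈ range (J + 1), (2 : ℝ) ^ j := by
          apply sum_le_sum_of_subset_of_nonneg
          · intro j hj
            rw [Finset.mem_Ico] at hj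
            exact mem_range.2 hj.2
          · intro _ _ _; positivity
      _ = 2 ^ (J + 1) - 1 := by
          rw [geom_sum_eq (by norm_num)]; norm_num
      _ ≤ 2 * W := by rw [pow_succ]; linarith
  calc φ j₁ / 3 ^ M * ∑ j ∈ Ico j₁ (J + 1), (2 : ℝ) ^ j ≤ φ j₁ / 3 ^ M * (2 * W) := by
        apply mul_le_mul_of_nonneg_left h3
        have := hφ0 j₁
        positivity
    _ = _ := by ring

/-- a sum over the squares -/
theorem sum_sq {φ : ℕ → ℝ} (hφ0 : ∀ j, 0 ≤ φ j) (hφ : Antitone φ) (j₀ : ℕ) {a : ℕ} (ha : 1 ≤ a) :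
    ∀ b : ℕ, a ≤ b → ∑ i ∈ Ico a b, (i : ℝ) * φ (max (i ^ 2) j₀) ≤
      ∑ j ∈ Ioc ((a - 1) ^ 2) ((b - 1) ^ 2), φ j := by
  intro b hab
  induction b, hab using Nat.le_induction with
  | base => simp
  | succ b hab ih =>
    rw [sum_Ico_succ_top hab]
    have h1 : (a - 1) ^ 2 ≤ (b - 1) ^ 2 := Nat.pow_le_pow_left (by omega) 2
    have h2 : (b - 1) ^ 2 ≤ (b + 1 - 1) ^ 2 := Nat.pow_le_pow_left (by omega) 2
    rw [← sum_Ioc_consecutive _ h1 h2]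
    apply add_le_add ih
    rw [Nat.add_sub_cancel]
    have h3 : ∑ _j ∈ Ioc ((b - 1) ^ 2) (b ^ 2), φ (max (b ^ 2) j₀) ≤ ∑ j ∈ Ioc ((b - 1) ^ 2) (b ^ 2), φ j := by
      apply sum_le_sum
      intro j hj
      rw [mem_Ioc] at hj
      exact hφ (hj.2.trans (le_max_left _ _))
    refine le_trans ?_ h3
    rw [sum_const, Nat.card_Ioc, nsmul_eq_mul]
    apply mul_le_mul_of_nonneg_right _ (hφ0 _)
    obtain ⟨b', rfl⟩ : ∃ b', b = b' + 1 := ⟨b - 1, by omega⟩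
    have h4 : b' + 1 ≤ (b' + 1) ^ 2 - (b' + 1 - 1) ^ 2 := by
      rw [Nat.add_sub_cancel]
      have : (b' + 1) ^ 2 = b' ^ 2 + (2 * b' + 1) := by ring
      rw [this, Nat.add_sub_cancel_left]
      omega
    exact_mod_cast h4

/-- the tail of the errors -/
theorem sum_err (B : ℕ) {a : ℕ} (ha : 1 ≤ a) (b : ℕ) :
    ∑ i ∈ Ico a b, 1 / (i : ℝ) ^ (B + 2) ≤ 2 / (a : ℝ) ^ B := by
  have ha0 : (0 : ℝ) < a := by exact_mod_cast ha
  have h1 : ∀ i ∈ Ico a b, 1 / (i : ℝ) ^ (B + 2) ≤ 1 / (a : ℝ) ^ B * ((i : ℝ) ^ 2)⁻¹ := by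
    intro i hi
    rw [Finset.mem_Ico] at hi
    have hia : (a : ℝ) ≤ i := by exact_mod_cast hi.1
    have hi0 : (0 : ℝ) < i := by linarith
    rw [pow_add, one_div, mul_inv, one_div]
    apply mul_le_mul_of_nonneg_right _ (by positivity)
    exact inv_anti₀ (by positivity) (pow_le_pow_left₀ ha0.le hia B)
  refine (sum_le_sum h1).trans ?_
  rw [← mul_sum]
  have h2 : ∑ i ∈ Ico a b, ((i : ℝ) ^ 2)⁻¹ ≤ 2 := by
    have h3 := sum_Ioo_inv_sq_le (α := ℝ) (a - 1) b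
    have h4 : Ioo (a - 1) b = Ico a b := by
      ext x; rw [Finset.mem_Ioo, Finset.mem_Ico]; omega
    rw [h4] at h3
    refine h3.trans ?_
    rw [div_le_iff₀ (by positivity)]
    have : (0 : ℝ) ≤ ((a - 1 : ℕ) : ℝ) := Nat.cast_nonneg _
    linarith
  calc 1 / (a : ℝ) ^ B * ∑ i ∈ Ico a b, ((i : ℝ) ^ 2)⁻¹ ≤ 1 / (a : ℝ) ^ B * 2 :=
        mul_le_mul_of_nonneg_left h2 (by positivity)
    _ = _ := by ring

end Pool.Agent.W5h24.BC
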