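import Pool.Agent.W5h24.BC.E

set_option autoImplicit false

/-! # Visits of a set, part F: the count of all integers -/

namespace Pool.Agent.W5h24.BC

open Finset
open Pool.Agent.H320R2.PD Pool.Agent.H499R2.ND
open Pool.Agent.H499R2.CO (Tz)
open Pool.Agent.R344.SP Pool.Agent.R344.TH

/-- the integers with more than `r` visits in the block `i` -/
def Mi (d : ℤ) (A : Set ℤ) (j₀ i r : ℕ) : Set ℤ := Mv d (cut A j₀) (2 ^ (i ^ 2)) (2 ^ ((i + 1) ^ 2)) r

/-- the odd integers, all blocks -/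
theorem odd_total {d : ℤ} (hd : Odd d) (hd3 : IsCoprime d 3) {θ : ℝ} (hθ : 0 < θ) (B : ℕ) :
    ∃ (J : ℕ) (C : ℝ), 1 ≤ J ∧ 0 < C ∧ ∀ j₀ : ℕ, J ≤ j₀ → ∀ φ : ℕ → ℝ, (∀ j, 0 ≤ φ j) → Antitone φ →
      ∀ A : Set ℤ, Dens θ A j₀ φ → ∀ (L : ℕ) (X : ℝ), 0 < X →
        ∑ i ∈ Ico (Nat.sqrt j₀) (Nat.sqrt L + 1), ∑ r ∈ range (KK i + 1), ((OD (Mi d A j₀ i r) X).card : ℝ) ≤
          C * (∑ j ∈ Icc (j₀ / 2) L, φ j + 1 / (j₀ : ℝ) ^ B) * X ∧
        ∑ i ∈ Ico (Nat.sqrt j₀) (Nat.sqrt L + 1), ((OD (Mi d A j₀ i (KK i)) X).card : ℝ) ≤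
          C * (1 / (j₀ : ℝ) ^ B) * X := by
  obtain ⟨i₀, C, hi₀, hC, hblock⟩ := block hd hd3 (2 * B + 2)
  obtain ⟨s, hs⟩ := exists_nat_ge (403 / θ)
  refine ⟨(i₀ + s + 8) ^ 2, 2 * C + C * (2 * 4 ^ B), Nat.succ_le_of_lt (by positivity), by positivity, ?_⟩
  intro j₀ hj₀ φ hφ0 hφ A hA L X hX
  set a := Nat.sqrt j₀ with ha
  set b := Nat.sqrt L + 1 with hb
  have haa : i₀ + s + 8 ≤ a := by
    rw [ha, Nat.le_sqrt']
    exact hj₀
  have ha2 : a ^ 2 ≤ j₀ := Nat.sqrt_le' j₀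
  have ha3 : j₀ < (a + 1) ^ 2 := Nat.lt_succ_sqrt' j₀
  have hj₀0 : 0 < j₀ := by
    have h0 : 0 < a := by omega
    have : 0 < a ^ 2 := by positivity
    omega
  have hj₀R : (0 : ℝ) < j₀ := by exact_mod_cast hj₀0
  have haR : (0 : ℝ) < a := by
    have : 0 < a := by omega
    exact_mod_cast this
  -- the density in a block
  have hfc : ∀ i ∈ Ico a b, ∀ W : ℝ, ∀ M ≤ 403 * i, ∀ c : ℤ, 0 ≤ W →
      ((fc (cut A j₀) (2 ^ (i ^ 2)) W M c).card : ℝ) ≤ 2 * φ (max (i ^ 2) j₀) * (W / 3 ^ M) := by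
    intro i hi W M hM c hW
    rw [Finset.mem_Ico] at hi
    apply fc_le hφ0 hφ hA (i ^ 2) (M₀ := 403 * i) _ W M hM c hW
    intro j hj
    have h1 : (s : ℝ) ≤ i := by
      have : s ≤ i := by omega
      exact_mod_cast this
    have h2 : (403 : ℝ) ≤ θ * i := by
      have := hs.trans h1
      rw [div_le_iff₀ hθ] at this
      linarith
    have h3 : ((i : ℝ)) ^ 2 ≤ j := by exact_mod_cast hj
    have hi0 : (0 : ℝ) ≤ i := Nat.cast_nonneg _
    calc ((403 * i : ℕ) : ℝ) = 403 * i := by push_cast; ring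
      _ ≤ θ * i * i := mul_le_mul_of_nonneg_right h2 hi0
      _ = θ * i ^ 2 := by ring
      _ ≤ θ * j := mul_le_mul_of_nonneg_left h3 hθ.le
  have hbl : ∀ i ∈ Ico a b, _ := fun i hi => hblock i (by rw [Finset.mem_Ico] at hi; omega) (cut A j₀)
    (2 * φ (max (i ^ 2) j₀)) (by have := hφ0 (max (i ^ 2) j₀); positivity) (hfc i hi) X hX
  -- the errors
  have herr : ∑ i ∈ Ico a b, 1 / (i : ℝ) ^ (2 * B + 2) ≤ 2 * 4 ^ B * (1 / (j₀ : ℝ) ^ B) := by
    refine (sum_err (2 * B) (by omega) b).trans ?_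
    have h1 : (j₀ : ℝ) ^ B ≤ 4 ^ B * (a : ℝ) ^ (2 * B) := by
      rw [pow_mul, ← mul_pow]
      apply pow_le_pow_left₀ hj₀R.le
      have h2 : j₀ ≤ 4 * a ^ 2 := by nlinarith
      exact_mod_cast h2
    rw [← mul_div_assoc, mul_one, div_le_div_iff₀ (by positivity) (by positivity)]
    nlinarith
  have herr0 : 0 ≤ 1 / (j₀ : ℝ) ^ B := by positivity
  have hsum0 : 0 ≤ ∑ j ∈ Icc (j₀ / 2) L, φ j := sum_nonneg fun j _ => hφ0 j
  have hmain : ∑ i ∈ Ico a b, (i : ℝ) * φ (max (i ^ 2) j₀) ≤ ∑ j ∈ Icc (j₀ / 2) L, φ j := by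
    rcases le_or_gt a b with hab | hab
    · refine (sum_sq hφ0 hφ j₀ (by omega) b hab).trans ?_
      apply sum_le_sum_of_subset_of_nonneg
      · intro j hj
        rw [mem_Ioc] at hj
        rw [Finset.mem_Icc]
        constructor
        · obtain ⟨a', ha'⟩ : ∃ a', a = a' + 1 := ⟨a - 1, by omega⟩
          rw [ha', Nat.add_sub_cancel] at hj
          rw [ha'] at ha3
          have h7 : 7 ≤ a' := by omega
          have h2 : j₀ < 2 * a' ^ 2 := by nlinarith
          omega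
        · rw [hb, Nat.add_sub_cancel] at hj
          exact hj.2.trans (Nat.sqrt_le' L)
      · intro j _ _
        exact hφ0 j
    · rw [Finset.Ico_eq_empty (by omega), sum_empty]
      exact hsum0
  constructor
  · refine (sum_le_sum fun i hi => (hbl i hi).1).trans ?_
    rw [← sum_mul]
    apply mul_le_mul_of_nonneg_right _ hX.le
    have h1 : ∑ i ∈ Ico a b, (C * i * (2 * φ (max (i ^ 2) j₀)) + C / (i : ℝ) ^ (2 * B + 2)) =
        2 * C * ∑ i ∈ Ico a b, (i : ℝ) * φ (max (i ^ 2) j₀) + C * ∑ i ∈ Ico a b, 1 / (i : ℝ) ^ (2 * B + 2) := by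
      rw [mul_sum, mul_sum, ← sum_add_distrib]
      apply sum_congr rfl
      intro i _
      ring
    rw [h1]
    have h2 := mul_le_mul_of_nonneg_left hmain (by positivity : 0 ≤ 2 * C)
    have h3 := mul_le_mul_of_nonneg_left herr hC.le
    have h4 : 0 ≤ C * (2 * 4 ^ B) * ∑ j ∈ Icc (j₀ / 2) L, φ j := by positivity
    have h5 : 0 ≤ 2 * C * (1 / (j₀ : ℝ) ^ B) := by positivity
    nlinarith
  · refine (sum_le_sum fun i hi => (hbl i hi).2).trans ?_
    rw [← sum_mul]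
    apply mul_le_mul_of_nonneg_right _ hX.le
    have h1 : ∑ i ∈ Ico a b, (C / (i : ℝ) ^ (2 * B + 2)) = C * ∑ i ∈ Ico a b, 1 / (i : ℝ) ^ (2 * B + 2) := by
      rw [mul_sum]
      apply sum_congr rfl
      intro i _
      ring
    rw [h1]
    have h3 := mul_le_mul_of_nonneg_left herr hC.le
    have h5 : 0 ≤ 2 * C * (1 / (j₀ : ℝ) ^ B) := by positivity
    nlinarith

open scoped Classical in
/-- the visits are in the blocks -/
theorem visit_blocks {d : ℤ} {A : Set ℤ} {j₀ N : ℕ} {x : ℤ} (hx : x ≤ N) {F : Finset ℕ}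
    (hF : ∀ k ∈ F, (Tz d)^[k] x ∈ A ∧ ∀ j ≤ k, (2 : ℤ) ^ j₀ ≤ (Tz d)^[j] x)
    (hno : ∀ i ∈ Ico (Nat.sqrt j₀) (Nat.sqrt (Nat.log 2 N) + 1), x ∉ Mi d A j₀ i (KK i)) :
    (F.card : ℝ) ≤ ∑ i ∈ Ico (Nat.sqrt j₀) (Nat.sqrt (Nat.log 2 N) + 1), ∑ r ∈ range (KK i + 1),
      (if x ∈ Mi d A j₀ i r then (1 : ℝ) else 0) := by
  set a := Nat.sqrt j₀ with ha
  set b := Nat.sqrt (Nat.log 2 N) + 1 with hb
  set Fi : ℕ → Finset ℕ := fun i => F.filter (fun k => Hit d (cut A j₀) (2 ^ (i ^ 2)) (2 ^ ((i + 1) ^ 2)) x k)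
    with hFi
  have hsub : F ⊆ (Ico a b).biUnion Fi := by
    intro k hk
    obtain ⟨h1, h2⟩ := hF k hk
    obtain ⟨j₁, hj₁, hmin⟩ := Finset.exists_min_image (range (k + 1)) (fun j => (Tz d)^[j] x) ⟨0, by simp⟩
    rw [mem_range] at hj₁
    have hμ := h2 j₁ (by omega)
    have hμx : (Tz d)^[j₁] x ≤ x := hmin 0 (by simp)
    have hμ0 : 0 < (Tz d)^[j₁] x := lt_of_lt_of_le (by positivity) hμ
    obtain ⟨y, hy⟩ := Int.eq_ofNat_of_zero_le hμ0.le
    have hy0 : y ≠ 0 := by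
      rintro rfl
      rw [hy] at hμ0
      simp at hμ0
    have hyN : y ≤ N := by
      have : (y : ℤ) ≤ N := by rw [← hy]; exact hμx.trans hx
      exact_mod_cast this
    have hylow : 2 ^ j₀ ≤ y := by
      have : ((2 : ℤ)) ^ j₀ ≤ y := by rw [← hy]; exact hμ
      exact_mod_cast this
    set L := Nat.log 2 y with hL
    have hL1 : j₀ ≤ L := Nat.le_log_of_pow_le (by norm_num) hylow
    have hL2 : L ≤ Nat.log 2 N := Nat.log_mono_right hyN
    rw [mem_biUnion]
    refine ⟨Nat.sqrt L, ?_, ?_⟩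
    · rw [Finset.mem_Ico, ha, hb]
      exact ⟨Nat.sqrt_le_sqrt hL1, Nat.lt_succ_of_le (Nat.sqrt_le_sqrt hL2)⟩
    · rw [hFi]
      simp only [mem_filter]
      have h3 : (Nat.sqrt L) ^ 2 ≤ L := Nat.sqrt_le' L
      have h4 : L < (Nat.sqrt L + 1) ^ 2 := Nat.lt_succ_sqrt' L
      have h5 : 2 ^ ((Nat.sqrt L) ^ 2) ≤ y := (Nat.pow_le_pow_right (by norm_num) h3).trans
        (Nat.pow_log_le_self 2 hy0)
      have h6 : y < 2 ^ ((Nat.sqrt L + 1) ^ 2) := (Nat.lt_pow_succ_log_self (by norm_num) y).trans_le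
        (Nat.pow_le_pow_right (by norm_num) h4)
      refine ⟨hk, ⟨h1, h2 k le_rfl⟩, ?_, j₁, by omega, ?_⟩
      · intro j hj
        have h7 := hmin j (mem_range.2 (by omega))
        rw [hy] at h7
        have h8 : ((y : ℤ) : ℝ) ≤ (((Tz d)^[j] x : ℤ) : ℝ) := by exact_mod_cast h7
        refine le_trans ?_ h8
        exact_mod_cast h5
      · rw [hy]
        exact_mod_cast h6
  have hcard : (F.card : ℝ) ≤ ∑ i ∈ Ico a b, ((Fi i).card : ℝ) := by
    have := (card_le_card hsub).trans card_biUnion_le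
    exact_mod_cast this
  refine hcard.trans (sum_le_sum ?_)
  intro i hi
  rw [← sum_filter, sum_const, nsmul_eq_mul, mul_one]
  have hc : (Fi i).card ≤ KK i := by
    by_contra hcon
    push Not at hcon
    obtain ⟨G, hG1, hG2⟩ := Finset.exists_subset_card_eq (Nat.succ_le_of_lt hcon)
    apply hno i hi
    refine ⟨G, hG2, fun k hk => ?_⟩
    exact (mem_filter.1 (hG1 hk)).2
  have h1 : range (Fi i).card ⊆ (range (KK i + 1)).filter (fun r => x ∈ Mi d A j₀ i r) := by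
    intro r hr
    rw [mem_range] at hr
    rw [mem_filter, mem_range]
    refine ⟨by omega, ?_⟩
    obtain ⟨G, hG1, hG2⟩ := Finset.exists_subset_card_eq (Nat.succ_le_of_lt hr)
    exact ⟨G, hG2, fun k hk => (mem_filter.1 (hG1 hk)).2⟩
  have h2 := card_le_card h1
  rw [card_range] at h2
  exact_mod_cast h2

open scoped Classical in
/-- THE COUNT of all integers with at least `lam` visits -/
theorem count_all {d : ℤ} (hd : Odd d) (hd3 : IsCoprime d 3) {θ : ℝ} (hθ : 0 < θ) (B : ℕ) :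
    ∃ (J : ℕ) (C : ℝ), 1 ≤ J ∧ 0 < C ∧ ∀ j₀ : ℕ, J ≤ j₀ → ∀ φ : ℕ → ℝ, (∀ j, 0 ≤ φ j) → Antitone φ →
      ∀ A : Set ℤ, Dens θ A j₀ φ → ∀ N lam : ℕ, 1 ≤ lam →
        (((Icc (1 : ℤ) N).filter (fun n => ∃ F : Finset ℕ, F.card = lam ∧ ∀ k ∈ F, (Tz d)^[k] n ∈ A ∧
          ∀ j ≤ k, (2 : ℤ) ^ j₀ ≤ (Tz d)^[j] n)).card : ℝ) ≤
        C * N * ((∑ j ∈ Icc (j₀ / 2) (Nat.log 2 N), φ j) / lam + 1 / (j₀ : ℝ) ^ B) := by
  obtain ⟨J, C, hJ, hC, hodd⟩ := odd_total hd hd3 hθ B
  refine ⟨J, 4 + 4 * C, hJ, by positivity, ?_⟩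
  intro j₀ hj₀ φ hφ0 hφ A hA N lam hlam
  have hlamR : (1 : ℝ) ≤ lam := by exact_mod_cast hlam
  have hlam0 : (0 : ℝ) < lam := by linarith
  have hj₀R : (0 : ℝ) < j₀ := by exact_mod_cast (by omega : 0 < j₀)
  set Sφ := ∑ j ∈ Icc (j₀ / 2) (Nat.log 2 N), φ j with hSφ
  have hS0 : 0 ≤ Sφ := sum_nonneg fun j _ => hφ0 j
  set Bad := (Icc (1 : ℤ) N).filter (fun n => ∃ F : Finset ℕ, F.card = lam ∧ ∀ k ∈ F, (Tz d)^[k] n ∈ A ∧
          ∀ j ≤ k, (2 : ℤ) ^ j₀ ≤ (Tz d)^[j] n) with hBad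
  rcases lt_or_ge N (2 ^ j₀) with hN | hN
  · have : Bad = ∅ := by
      rw [Finset.eq_empty_iff_forall_notMem]
      intro n hn
      rw [hBad, mem_filter, Finset.mem_Icc] at hn
      obtain ⟨⟨h1, h2⟩, F, hF1, hF2⟩ := hn
      obtain ⟨k, hk⟩ : F.Nonempty := by rw [← Finset.card_pos]; omega
      have h3 := (hF2 k hk).2 0 (Nat.zero_le _)
      rw [Function.iterate_zero, id] at h3
      have h4 : ((2 ^ j₀ : ℕ) : ℤ) ≤ N := by push_cast; exact h3.trans h2
      have h5 : 2 ^ j₀ ≤ N := by exact_mod_cast h4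
      omega
    rw [this, card_empty, Nat.cast_zero]
    positivity
  have hN0 : 0 < N := lt_of_lt_of_le (by positivity) hN
  have hNR : (0 : ℝ) < N := by exact_mod_cast hN0
  set L := Nat.log 2 N with hL
  have hjL : j₀ ≤ L := Nat.le_log_of_pow_le (by norm_num) hN
  have hφS : φ j₀ ≤ Sφ := by
    rw [hSφ]
    apply single_le_sum (f := φ) (fun j _ => hφ0 j)
    rw [Finset.mem_Icc]
    omega
  set a := Nat.sqrt j₀ with ha
  set b := Nat.sqrt L + 1 with hb
  obtain ⟨E, hE⟩ : ∃ E : ℕ, (N : ℝ) < 2 ^ E := pow_unbounded_of_one_lt _ (by norm_num)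
  -- odd parts
  have hch : ∀ n : ℤ, ∃ p : ℕ × ℤ, 0 < n → Odd p.2 ∧ 0 < p.2 ∧ n = 2 ^ p.1 * p.2 := by
    intro n
    by_cases hn : 0 < n
    · obtain ⟨e, M, h1, h2, h3⟩ := odd_part hn
      exact ⟨(e, M), fun _ => ⟨h1, h2, h3⟩⟩
    · exact ⟨(0, 0), fun h => absurd h hn⟩
  choose f hf using hch
  set g : ℤ → ℝ := fun M => lam * ∑ i ∈ Ico a b, (if M ∈ Mi d A j₀ i (KK i) then (1 : ℝ) else 0) +
    ∑ i ∈ Ico a b, ∑ r ∈ range (KK i + 1), (if M ∈ Mi d A j₀ i r then (1 : ℝ) else 0) with hg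
  have hg0 : ∀ M, 0 ≤ g M := by
    intro M
    rw [hg]
    apply add_nonneg
    · apply mul_nonneg hlam0.le
      apply sum_nonneg
      intro i _
      split_ifs <;> norm_num
    · apply sum_nonneg
      intro i _
      apply sum_nonneg
      intro r _
      split_ifs <;> norm_num
  set init : ℤ → ℝ := fun n => ∑ k ∈ range E, (if (2 : ℤ) ^ k ∣ n ∧ n / 2 ^ k ∈ cut A j₀ then (1 : ℝ) else 0)
    with hinit
  have hinit0 : ∀ n, 0 ≤ init n := by
    intro n
    apply sum_nonneg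
    intro k _
    split_ifs <;> norm_num
  have hbnd : ∀ n ∈ Icc (1 : ℤ) N, (f n).1 < E := by
    intro n hn
    rw [Finset.mem_Icc] at hn
    obtain ⟨h1, h2, h3⟩ := hf n (by omega)
    by_contra hcon
    push Not at hcon
    have h4 : (2 : ℝ) ^ E ≤ 2 ^ (f n).1 := pow_le_pow_right₀ (by norm_num) hcon
    have h5 : (1 : ℝ) ≤ (f n).2 := by
      have : (1 : ℤ) ≤ (f n).2 := by omega
      exact_mod_cast this
    have h6 : (n : ℝ) = 2 ^ (f n).1 * (f n).2 := by exact_mod_cast h3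
    have h7 : (n : ℝ) ≤ N := by exact_mod_cast hn.2
    have h8 : (2 : ℝ) ^ (f n).1 ≤ n := by rw [h6]; exact le_mul_of_one_le_right (by positivity) h5
    linarith
  -- the key inequality
  have hkey : ∀ n ∈ Bad, (lam : ℝ) ≤ init n + g (f n).2 := by
    intro n hn
    rw [hBad, mem_filter] at hn
    obtain ⟨hnI, F, hF1, hF2⟩ := hn
    have hnI' := hnI
    rw [Finset.mem_Icc] at hnI'
    obtain ⟨hMo, hM0, hnM⟩ := hf n (by omega)
    set e := (f n).1 with he
    set M := (f n).2 with hM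
    have hTe : (Tz d)^[e] n = M := by
      rw [hnM, iter_pow_two M e e le_rfl]; simp
    have hsh : ∀ j, (Tz d)^[j] M = (Tz d)^[j + e] n := by
      intro j
      rw [Function.iterate_add_apply, hTe]
    have hMN : M ≤ N := by
      have h1 : M ≤ n := by
        rw [hnM]
        exact le_mul_of_one_le_left hM0.le (one_le_pow₀ (by norm_num))
      omega
    by_cases htop : ∃ i ∈ Ico a b, M ∈ Mi d A j₀ i (KK i)
    · obtain ⟨i, hi, hiM⟩ := htop
      have h1 : (1 : ℝ) ≤ ∑ i ∈ Ico a b, (if M ∈ Mi d A j₀ i (KK i) then (1 : ℝ) else 0) := by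
        have h2 := single_le_sum (f := fun i => if M ∈ Mi d A j₀ i (KK i) then (1 : ℝ) else 0)
          (s := Ico a b) (fun i _ => by split_ifs <;> norm_num) hi
        simp only [if_pos hiM] at h2
        exact h2
      have h3 : (lam : ℝ) ≤ g M := by
        rw [hg]
        have h4 : (0 : ℝ) ≤ ∑ i ∈ Ico a b, ∑ r ∈ range (KK i + 1), (if M ∈ Mi d A j₀ i r then (1 : ℝ) else 0) := by
          apply sum_nonneg
          intro i _
          apply sum_nonneg
          intro r _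
          split_ifs <;> norm_num
        have h5 := mul_le_mul_of_nonneg_left h1 hlam0.le
        simp only
        linarith
      linarith [hinit0 n]
    · push Not at htop
      set F₁ := F.filter (fun k => k < e) with hF₁
      set F₂ := F.filter (fun k => ¬ k < e) with hF₂
      have hsplit : F₁.card + F₂.card = lam := by
        rw [hF₁, hF₂, card_filter_add_card_filter_not, hF1]
      have h1 : (F₁.card : ℝ) ≤ init n := by
        rw [hinit]
        simp only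
        rw [← sum_filter, sum_const, nsmul_eq_mul, mul_one]
        have : F₁ ⊆ (range E).filter (fun k => (2 : ℤ) ^ k ∣ n ∧ n / 2 ^ k ∈ cut A j₀) := by
          intro k hk
          rw [hF₁, mem_filter] at hk
          have hke := hk.2.le
          have hTk : (Tz d)^[k] n = 2 ^ (e - k) * M := by
            rw [hnM, iter_pow_two M k e hke]
          have hdiv : n = 2 ^ k * (2 ^ (e - k) * M) := by
            rw [← mul_assoc, ← pow_add, Nat.add_sub_cancel' hke]; exact hnM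
          have hquot : n / 2 ^ k = 2 ^ (e - k) * M := by
            rw [hdiv]
            exact Int.mul_ediv_cancel_left _ (by positivity)
          rw [mem_filter, mem_range]
          refine ⟨lt_trans hk.2 (hbnd n hnI), ⟨_, hdiv⟩, ?_⟩
          rw [hquot, ← hTk]
          exact ⟨(hF2 k hk.1).1, (hF2 k hk.1).2 k le_rfl⟩
        exact_mod_cast card_le_card this
      have h2 : (F₂.card : ℝ) ≤ g M := by
        have hinj : (F₂.image (fun k => k - e)).card = F₂.card := by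
          apply card_image_of_injOn
          intro k hk k' hk' hkk
          rw [mem_coe, hF₂, mem_filter] at hk hk'
          simp only at hkk
          omega
        rw [← hinj]
        have h3 := visit_blocks (d := d) (A := A) (j₀ := j₀) (N := N) (x := M) hMN
          (F := F₂.image (fun k => k - e)) (by
            intro k hk
            rw [mem_image] at hk
            obtain ⟨k', hk', rfl⟩ := hk
            rw [hF₂, mem_filter] at hk'
            obtain ⟨h4, h5⟩ := hF2 k' hk'.1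
            refine ⟨?_, ?_⟩
            · rw [hsh, Nat.sub_add_cancel (by omega)]; exact h4
            · intro j hj
              rw [hsh]; exact h5 _ (by omega)) htop
        refine h3.trans ?_
        rw [hg]
        have h4 : (0 : ℝ) ≤ lam * ∑ i ∈ Ico a b, (if M ∈ Mi d A j₀ i (KK i) then (1 : ℝ) else 0) := by
          apply mul_nonneg hlam0.le
          apply sum_nonneg
          intro i _
          split_ifs <;> norm_num
        simp only
        linarith
      have h3 : (lam : ℝ) = F₁.card + F₂.card := by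
        rw [← hsplit]; push_cast; ring
      linarith
  have hgeo := geom_half E
  -- the sum of `init`
  have hI : ∑ n ∈ Icc (1 : ℤ) N, init n ≤ 4 * φ j₀ * N := by
    rw [hinit]
    simp only
    rw [sum_comm]
    have h1 : ∀ k ∈ range E, ∑ n ∈ Icc (1 : ℤ) N, (if (2 : ℤ) ^ k ∣ n ∧ n / 2 ^ k ∈ cut A j₀ then (1 : ℝ) else 0) ≤
        2 * φ j₀ * N * (1 / 2) ^ k := by
      intro k _
      rw [← sum_filter, sum_const, nsmul_eq_mul, mul_one]
      have h2 : ((Icc (1 : ℤ) N).filter (fun n => (2 : ℤ) ^ k ∣ n ∧ n / 2 ^ k ∈ cut A j₀)).card ≤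
          (fc (cut A j₀) (2 ^ j₀) ((N : ℝ) * (1 / 2) ^ k) 0 0).card := by
        apply card_le_card_of_injOn (fun n => n / 2 ^ k)
        · intro n hn
          rw [mem_coe, mem_filter, Finset.mem_Icc] at hn
          obtain ⟨⟨h3, h4⟩, ⟨y, hy⟩, h6⟩ := hn
          rw [mem_coe, mem_fc]
          have h7 : n / 2 ^ k = y := by rw [hy]; exact Int.mul_ediv_cancel_left _ (by positivity)
          simp only
          refine ⟨⟨?_, ?_⟩, h6, by simp⟩
          · exact_mod_cast h6.2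
          · rw [h7, one_div, inv_pow, ← div_eq_mul_inv, le_div_iff₀ (by positivity)]
            have h8 : (n : ℝ) = 2 ^ k * y := by exact_mod_cast hy
            have h9 : (n : ℝ) ≤ N := by exact_mod_cast h4
            linarith
        · intro n hn n' hn' hnn
          rw [mem_coe, mem_filter] at hn hn'
          obtain ⟨_, ⟨y, hy⟩, _⟩ := hn
          obtain ⟨_, ⟨y', hy'⟩, _⟩ := hn'
          simp only at hnn
          rw [hy, hy', Int.mul_ediv_cancel_left _ (by positivity),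
            Int.mul_ediv_cancel_left _ (by positivity)] at hnn
          rw [hy, hy', hnn]
      have h3 := fc_le hφ0 hφ hA j₀ (M₀ := 0) (fun j _ => by
        rw [Nat.cast_zero]; positivity) ((N : ℝ) * (1 / 2) ^ k) 0 le_rfl 0 (by positivity)
      rw [max_self, pow_zero, div_one] at h3
      have h4 : ((((Icc (1 : ℤ) N).filter (fun n => (2 : ℤ) ^ k ∣ n ∧ n / 2 ^ k ∈ cut A j₀)).card : ℕ) : ℝ) ≤
          (fc (cut A j₀) (2 ^ j₀) ((N : ℝ) * (1 / 2) ^ k) 0 0).card := by exact_mod_cast h2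
      linarith
    refine (sum_le_sum h1).trans ?_
    rw [← mul_sum]
    have := hφ0 j₀
    calc 2 * φ j₀ * N * ∑ k ∈ range E, (1 / 2 : ℝ) ^ k ≤ 2 * φ j₀ * N * 2 :=
          mul_le_mul_of_nonneg_left hgeo (by positivity)
      _ = _ := by ring
  -- the sum of `g`
  set ρ : ℝ := lam * (C * (1 / (j₀ : ℝ) ^ B)) + C * (Sφ + 1 / (j₀ : ℝ) ^ B) with hρ
  have hG1 : ∀ X : ℝ, 0 < X → ∑ M ∈ OD Set.univ X, g M ≤ ρ * X := by
    intro X hX
    obtain ⟨h1, h2⟩ := hodd j₀ hj₀ φ hφ0 hφ A hA L X hX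
    rw [← hSφ] at h1
    have hcnt : ∀ S : Set ℤ, ∑ M ∈ OD Set.univ X, (if M ∈ S then (1 : ℝ) else 0) = ((OD S X).card : ℝ) := by
      intro S
      rw [← sum_filter, sum_const, nsmul_eq_mul, mul_one]
      congr 2
      ext x
      rw [mem_filter, mem_OD, mem_OD]
      simp only [Set.mem_univ, and_true]
      tauto
    rw [hg]
    simp only
    rw [sum_add_distrib, ← mul_sum, sum_comm]
    have e1 : ∑ i ∈ Ico a b, ∑ M ∈ OD Set.univ X, (if M ∈ Mi d A j₀ i (KK i) then (1 : ℝ) else 0) =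
        ∑ i ∈ Ico a b, ((OD (Mi d A j₀ i (KK i)) X).card : ℝ) := sum_congr rfl fun i _ => hcnt _
    have e2 : ∑ M ∈ OD Set.univ X, ∑ i ∈ Ico a b, ∑ r ∈ range (KK i + 1),
        (if M ∈ Mi d A j₀ i r then (1 : ℝ) else 0) =
        ∑ i ∈ Ico a b, ∑ r ∈ range (KK i + 1), ((OD (Mi d A j₀ i r) X).card : ℝ) := by
      rw [sum_comm]
      apply sum_congr rfl
      intro i _
      rw [sum_comm]
      exact sum_congr rfl fun r _ => hcnt _
    rw [e1, e2, hρ]
    have h3 := mul_le_mul_of_nonneg_left h2 hlam0.le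
    calc lam * ∑ i ∈ Ico a b, ((OD (Mi d A j₀ i (KK i)) X).card : ℝ) +
        ∑ i ∈ Ico a b, ∑ r ∈ range (KK i + 1), ((OD (Mi d A j₀ i r) X).card : ℝ)
        ≤ lam * (C * (1 / (j₀ : ℝ) ^ B) * X) + C * (Sφ + 1 / (j₀ : ℝ) ^ B) * X := add_le_add h3 h1
      _ = _ := by ring
  have hρ0 : 0 ≤ ρ := by rw [hρ]; positivity
  have hG : ∑ n ∈ Icc (1 : ℤ) N, g (f n).2 ≤ 2 * ρ * N := by
    have h1 : ∑ n ∈ Icc (1 : ℤ) N, g (f n).2 =
        ∑ e ∈ range E, ∑ n ∈ (Icc (1 : ℤ) N).filter (fun n => (f n).1 = e), g (f n).2 := by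
      rw [sum_fiberwise_of_maps_to]
      intro n hn
      exact mem_range.2 (hbnd n hn)
    rw [h1]
    have h2 : ∀ e ∈ range E, ∑ n ∈ (Icc (1 : ℤ) N).filter (fun n => (f n).1 = e), g (f n).2 ≤
        ρ * N * (1 / 2) ^ e := by
      intro e _
      have hinj : Set.InjOn (fun n => (f n).2) ((Icc (1 : ℤ) N).filter (fun n => (f n).1 = e) : Finset ℤ) := by
        intro n hn n' hn' hnn
        rw [mem_coe, mem_filter, Finset.mem_Icc] at hn hn'
        obtain ⟨_, _, h3⟩ := hf n (by omega)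
        obtain ⟨_, _, h3'⟩ := hf n' (by omega)
        simp only at hnn
        rw [h3, h3', hn.2, hn'.2, hnn]
      rw [← sum_image (f := g) hinj]
      have h3 := hG1 ((N : ℝ) * (1 / 2) ^ e) (by positivity)
      rw [← mul_assoc] at h3
      refine le_trans ?_ h3
      apply sum_le_sum_of_subset_of_nonneg
      · intro M hM
        rw [mem_image] at hM
        obtain ⟨n, hn, rfl⟩ := hM
        rw [mem_filter, Finset.mem_Icc] at hn
        obtain ⟨h4, h5, h6⟩ := hf n (by omega)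
        rw [mem_OD]
        refine ⟨⟨by omega, ?_⟩, h4, Set.mem_univ _⟩
        rw [one_div, inv_pow, ← div_eq_mul_inv, le_div_iff₀ (by positivity)]
        have h8 : (n : ℝ) = 2 ^ e * (f n).2 := by
          rw [← hn.2]; exact_mod_cast h6
        have h9 : (n : ℝ) ≤ N := by exact_mod_cast hn.1.2
        linarith
      · intro M _ _
        exact hg0 M
    refine (sum_le_sum h2).trans ?_
    rw [← mul_sum]
    calc ρ * N * ∑ k ∈ range E, (1 / 2 : ℝ) ^ k ≤ ρ * N * 2 := mul_le_mul_of_nonneg_left hgeo (by positivity)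
      _ = _ := by ring
  -- conclusion
  have h1 : (lam : ℝ) * Bad.card ≤ ∑ n ∈ Icc (1 : ℤ) N, (init n + g (f n).2) := by
    calc (lam : ℝ) * Bad.card = ∑ _n ∈ Bad, (lam : ℝ) := by rw [sum_const, nsmul_eq_mul, mul_comm]
      _ ≤ ∑ n ∈ Bad, (init n + g (f n).2) := sum_le_sum hkey
      _ ≤ _ := by
          apply sum_le_sum_of_subset_of_nonneg
          · rw [hBad]; exact filter_subset _ _
          · intro n _ _
            exact add_nonneg (hinit0 n) (hg0 _)
  rw [sum_add_distrib] at h1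
  have h2 : (lam : ℝ) * Bad.card ≤ 4 * φ j₀ * N + 2 * ρ * N := by linarith
  have hB0 : 0 < 1 / (j₀ : ℝ) ^ B := by positivity
  have h3 : 4 * φ j₀ * N + 2 * ρ * N ≤ lam * ((4 + 4 * C) * N * (Sφ / lam + 1 / (j₀ : ℝ) ^ B)) := by
    have e1 : lam * ((4 + 4 * C) * N * (Sφ / lam + 1 / (j₀ : ℝ) ^ B)) =
        (4 + 4 * C) * N * (Sφ + lam * (1 / (j₀ : ℝ) ^ B)) := by
      field_simp
    rw [e1, hρ]
    have e2 : 4 * φ j₀ * N ≤ 4 * Sφ * N := by
      have := mul_le_mul_of_nonneg_right hφS hNR.le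
      linarith
    have e3 : 1 / (j₀ : ℝ) ^ B ≤ lam * (1 / (j₀ : ℝ) ^ B) := le_mul_of_one_le_left hB0.le hlamR
    have e4 : C * N * (1 / (j₀ : ℝ) ^ B) ≤ C * N * (lam * (1 / (j₀ : ℝ) ^ B)) :=
      mul_le_mul_of_nonneg_left e3 (by positivity)
    have e5 : 0 ≤ N * (lam * (1 / (j₀ : ℝ) ^ B)) := by positivity
    have e6 : 0 ≤ C * N * Sφ := by positivity
    nlinarith
  have h4 := h2.trans h3
  exact le_of_mul_le_mul_left h4 hlam0

end Pool.Agent.W5h24.BC
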