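import Pool.Agent.W5h24.BC.F

set_option autoImplicit false

/-! # Visits of a set, part G: long runs of terms of the same parity, upper bound -/

namespace Pool.Agent.W5h24.BC

open Finset
open Pool.Agent.H320R2.PD Pool.Agent.H499R2.ND
open Pool.Agent.H499R2.CO (Tz)
open Pool.Agent.R344.SP Pool.Agent.R344.TH

/-- a run of `r` terms of parity `e` -/
theorem run_dvd {e : ℤ} (he : e = 0 ∨ e = 1) : ∀ (r : ℕ) (x : ℤ),
    (∀ i < r, (Tz 1)^[i] x % 2 = e) → (2 : ℤ) ^ r ∣ x + e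
  | 0, x, _ => by simp
  | r + 1, x, h => by
    have h0 := h 0 (by omega)
    rw [Function.iterate_zero, id] at h0
    have ih := run_dvd he r (Tz 1 x) (fun i hi => by
      have := h (i + 1) (by omega)
      rwa [Function.iterate_succ_apply] at this)
    obtain ⟨y, hy⟩ := ih
    rcases he with rfl | rfl
    · have h1 := Tz_even (d := 1) h0
      refine ⟨y, ?_⟩
      rw [pow_succ]
      linarith
    · have h1 := Tz_odd (d := 1) (by norm_num) (y := x) (by omega)
      have h2 : (2 : ℤ) ^ (r + 1) ∣ 3 * (x + 1) := ⟨y, by rw [pow_succ]; linarith⟩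
      have h3 : IsCoprime ((2 : ℤ) ^ (r + 1)) 3 := IsCoprime.pow_left ⟨-1, 1, by norm_num⟩
      exact h3.dvd_of_dvd_mul_left h2

/-- the integers with a run of `r` terms of parity `e` at the beginning -/
def RS (e : ℤ) (r : ℕ) : Set ℤ := {x : ℤ | (2 : ℤ) ^ r ∣ x + e}

/-- the density of the runs -/
noncomputable def ph (r j : ℕ) : ℝ := (1 / 2) ^ r + (1 / 2) ^ (max j (r - 1) / 2)

theorem ph_nonneg (r j : ℕ) : 0 ≤ ph r j := by unfold ph; positivity

theorem ph_anti (r : ℕ) : Antitone (ph r) := by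
  intro j j' hj
  unfold ph
  apply add_le_add le_rfl
  apply pow_le_pow_of_le_one (by norm_num) (by norm_num)
  apply Nat.div_le_div_right
  exact max_le_max hj le_rfl

theorem dens_run {e : ℤ} (he : e = 0 ∨ e = 1) (r j₀ : ℕ) : Dens (1 / 8) (RS e r) j₀ (ph r) := by
  classical
  intro j _ M hM c
  have hM8 : 8 * M ≤ j := by
    have : 8 * (M : ℝ) ≤ j := by linarith
    exact_mod_cast this
  have h2j : (0 : ℝ) < 2 ^ j / 3 ^ M := by positivity
  rcases lt_or_ge (j + 1) r with hjr | hjr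
  · have : dy (RS e r) j M c = ∅ := by
      rw [Finset.eq_empty_iff_forall_notMem]
      intro x hx
      rw [mem_dy] at hx
      obtain ⟨⟨h1, h2⟩, h3, _⟩ := hx
      have h4 : (1 : ℤ) ≤ 2 ^ j := one_le_pow₀ (by norm_num)
      have h5 : (2 : ℤ) ^ r ≤ x + e := Int.le_of_dvd (by rcases he with rfl | rfl <;> omega) h3
      have h6 : (2 : ℤ) ^ (j + 1) < 2 ^ r := pow_lt_pow_right₀ (by norm_num) hjr
      rcases he with rfl | rfl <;> omega
    rw [this, card_empty, Nat.cast_zero]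
    exact mul_nonneg (ph_nonneg r j) h2j.le
  · have hmax : max j (r - 1) = j := by omega
    have hcard : ((dy (RS e r) j M c).card : ℝ) ≤ 2 ^ j / (2 ^ r * 3 ^ M) + 1 := by
      rcases (dy (RS e r) j M c).eq_empty_or_nonempty with h0 | ⟨x₀, hx₀⟩
      · rw [h0, card_empty, Nat.cast_zero]
        positivity
      · rw [mem_dy] at hx₀
        have hsub : dy (RS e r) j M c ⊆ ap (2 ^ j) (2 ^ (j + 1)) (2 ^ r * 3 ^ M) x₀ := by
          intro x hx
          rw [mem_dy] at hx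
          rw [mem_ap]
          refine ⟨⟨by exact_mod_cast hx.1.1, by exact_mod_cast hx.1.2⟩, ?_⟩
          have h6 : IsCoprime ((2 : ℤ) ^ r) (3 ^ M) := IsCoprime.pow ⟨-1, 1, by norm_num⟩
          apply h6.mul_dvd
          · have h7 := dvd_sub hx.2.1 hx₀.2.1
            have e1 : x + e - (x₀ + e) = x - x₀ := by ring
            rwa [e1] at h7
          · have h7 := dvd_sub hx.2.2 hx₀.2.2
            have e1 : x - c - (x₀ - c) = x - x₀ := by ring
            rwa [e1] at h7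
        have h1 := ap_card_le (a := (2 : ℝ) ^ j) (b := 2 ^ (j + 1))
          (pow_le_pow_right₀ (by norm_num) (by omega)) (q := 2 ^ r * 3 ^ M) (by positivity) x₀
        have h2 : ((dy (RS e r) j M c).card : ℝ) ≤
            ((ap ((2 : ℝ) ^ j) (2 ^ (j + 1)) (2 ^ r * 3 ^ M) x₀).card : ℝ) := by
          exact_mod_cast card_le_card hsub
        refine h2.trans (h1.trans (le_of_eq ?_))
        push_cast
        rw [pow_succ]
        ring
    refine hcard.trans ?_
    unfold ph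
    rw [hmax, add_mul]
    apply add_le_add
    · apply le_of_eq
      rw [div_pow, one_pow]
      field_simp
    · have h3 : (3 : ℝ) ^ M ≤ 2 ^ (j - j / 2) := by
        calc (3 : ℝ) ^ M ≤ 4 ^ M := pow_le_pow_left₀ (by norm_num) (by norm_num) M
          _ = 2 ^ (2 * M) := by rw [pow_mul]; norm_num
          _ ≤ 2 ^ (j - j / 2) := pow_le_pow_right₀ (by norm_num) (by omega)
      rw [← mul_div_assoc, le_div_iff₀ (by positivity), one_mul]
      refine h3.trans (le_of_eq ?_)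
      have h4 : (2 : ℝ) ^ j = 2 ^ (j / 2) * 2 ^ (j - j / 2) := by
        rw [← pow_add]; congr 1; omega
      rw [h4, div_pow, one_pow]
      field_simp

theorem sum_quarter : ∀ n : ℕ, ∑ j ∈ range (4 * n), (1 / 2 : ℝ) ^ (j / 4) = 4 * ∑ i ∈ range n, (1 / 2 : ℝ) ^ i
  | 0 => by simp
  | n + 1 => by
    have ih := sum_quarter n
    have h4 : 4 * (n + 1) = 4 * n + 1 + 1 + 1 + 1 := by ring
    rw [h4, sum_range_succ, sum_range_succ, sum_range_succ, sum_range_succ, ih, sum_range_succ]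
    have e0 : 4 * n / 4 = n := by omega
    have e1 : (4 * n + 1) / 4 = n := by omega
    have e2 : (4 * n + 1 + 1) / 4 = n := by omega
    have e3 : (4 * n + 1 + 1 + 1) / 4 = n := by omega
    rw [e0, e1, e2, e3]
    ring

theorem ph_sum (r a L : ℕ) : ∑ j ∈ Icc a L, ph r j ≤ (L + 1) * (1 / 2) ^ r + 8 * (1 / 2) ^ ((r - 1) / 4) := by
  have h1 : ∑ j ∈ Icc a L, ph r j ≤ ∑ j ∈ range (L + 1), ph r j := by
    apply sum_le_sum_of_subset_of_nonneg
    · intro j hj
      rw [Finset.mem_Icc] at hj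
      rw [mem_range]
      omega
    · intro j _ _
      exact ph_nonneg r j
  refine h1.trans ?_
  unfold ph
  rw [sum_add_distrib, sum_const, card_range, nsmul_eq_mul]
  push_cast
  apply add_le_add le_rfl
  have h2 : ∀ j ∈ range (L + 1), (1 / 2 : ℝ) ^ (max j (r - 1) / 2) ≤ (1 / 2) ^ ((r - 1) / 4) * (1 / 2) ^ (j / 4) := by
    intro j _
    rw [← pow_add]
    apply pow_le_pow_of_le_one (by norm_num) (by norm_num)
    have h3 := le_max_left j (r - 1)
    have h4 := le_max_right j (r - 1)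
    omega
  refine (sum_le_sum h2).trans ?_
  rw [← mul_sum, mul_comm]
  apply mul_le_mul_of_nonneg_right _ (by positivity)
  have h5 : ∑ j ∈ range (L + 1), (1 / 2 : ℝ) ^ (j / 4) ≤ ∑ j ∈ range (4 * (L + 1)), (1 / 2 : ℝ) ^ (j / 4) := by
    apply sum_le_sum_of_subset_of_nonneg
    · intro j hj
      rw [mem_range] at hj ⊢
      omega
    · intro j _ _
      positivity
  rw [sum_quarter] at h5
  have := geom_half (L + 1)
  linarith

open scoped Classical in
/-- THE UPPER BOUND for the runs -/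
theorem run_upper : ∃ (J : ℕ) (C : ℝ), 1 ≤ J ∧ 0 < C ∧ ∀ e : ℤ, (e = 0 ∨ e = 1) → ∀ j₀ : ℕ, J ≤ j₀ →
    ∀ N r : ℕ, (((Icc (1 : ℤ) N).filter (fun n => ∃ k : ℕ, (∀ i < r, (Tz 1)^[k + i] n % 2 = e) ∧
      ∀ j ≤ k, (2 : ℤ) ^ j₀ ≤ (Tz 1)^[j] n)).card : ℝ) ≤
      C * N * ((Nat.log 2 N + 1) * (1 / 2) ^ r + 8 * (1 / 2) ^ ((r - 1) / 4) + 1 / (j₀ : ℝ)) := by
  obtain ⟨J, C, hJ, hC, h⟩ := count_all (d := 1) (by decide) isCoprime_one_left
    (θ := 1 / 8) (by norm_num) 1
  refine ⟨J, C, hJ, hC, ?_⟩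
  intro e he j₀ hj₀ N r
  have h1 := h j₀ hj₀ (ph r) (ph_nonneg r) (ph_anti r) (RS e r) (dens_run he r j₀) N 1 le_rfl
  rw [pow_one, Nat.cast_one, div_one] at h1
  have h2 : (((Icc (1 : ℤ) N).filter (fun n => ∃ k : ℕ, (∀ i < r, (Tz 1)^[k + i] n % 2 = e) ∧
      ∀ j ≤ k, (2 : ℤ) ^ j₀ ≤ (Tz 1)^[j] n)).card : ℝ) ≤
      (((Icc (1 : ℤ) N).filter (fun n => ∃ F : Finset ℕ, F.card = 1 ∧ ∀ k ∈ F, (Tz 1)^[k] n ∈ RS e r ∧
          ∀ j ≤ k, (2 : ℤ) ^ j₀ ≤ (Tz 1)^[j] n)).card : ℝ) := by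
    have : (Icc (1 : ℤ) N).filter (fun n => ∃ k : ℕ, (∀ i < r, (Tz 1)^[k + i] n % 2 = e) ∧
      ∀ j ≤ k, (2 : ℤ) ^ j₀ ≤ (Tz 1)^[j] n) ⊆
      (Icc (1 : ℤ) N).filter (fun n => ∃ F : Finset ℕ, F.card = 1 ∧ ∀ k ∈ F, (Tz 1)^[k] n ∈ RS e r ∧
          ∀ j ≤ k, (2 : ℤ) ^ j₀ ≤ (Tz 1)^[j] n) := by
      intro n hn
      rw [mem_filter] at hn ⊢
      obtain ⟨h3, k, h4, h5⟩ := hn
      refine ⟨h3, {k}, card_singleton k, ?_⟩
      intro k' hk'
      rw [mem_singleton] at hk'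
      subst hk'
      refine ⟨?_, h5⟩
      apply run_dvd he
      intro i hi
      rw [← Function.iterate_add_apply, add_comm]
      exact h4 i hi
    exact_mod_cast card_le_card this
  refine h2.trans (h1.trans ?_)
  apply mul_le_mul_of_nonneg_left _ (by positivity)
  have := ph_sum r (j₀ / 2) (Nat.log 2 N)
  linarith

end Pool.Agent.W5h24.BC
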