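import Pool.Agent.W5h24.BC.G

set_option autoImplicit false

/-! # Visits of a set, part H: long runs of terms of the same parity, lower bound -/

namespace Pool.Agent.W5h24.BC

open Finset
open Pool.Agent.H499R2.CO (Tz)
open Pool.Agent.R344.SP Pool.Agent.R344.TH

/-- the parity of the term number `i` -/
def par (x : ℤ) (i : ℕ) : ℤ := (Tz 1)^[i] x % 2

theorem par_shift (i : ℕ) (x y : ℤ) : par (x + 2 ^ i * y) i = (par x i + y) % 2 := by
  unfold par
  rw [iter_shift (by norm_num)]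
  have h1 : ((3 : ℤ) ^ od 1 i x * y) % 2 = y % 2 := by
    rw [Int.mul_emod]
    have : ((3 : ℤ) ^ od 1 i x) % 2 = 1 := by
      have h2 : Odd ((3 : ℤ) ^ od 1 i x) := Odd.pow (by decide)
      exact Int.odd_iff.1 h2
    rw [this, one_mul, Int.emod_emod_of_dvd _ (dvd_refl 2)]
  omega

theorem par_per {L : ℕ} {x y : ℤ} (h : (2 : ℤ) ^ L ∣ x - y) : ∀ i < L, par x i = par y i := by
  intro i hi
  obtain ⟨m, hm⟩ := h
  have h1 : x = y + 2 ^ i * (2 ^ (L - i) * m) := by
    rw [← mul_assoc, ← pow_add, Nat.add_sub_cancel' hi.le]; linarith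
  rw [h1, par_shift]
  obtain ⟨s, hs⟩ : ∃ s, L - i = s + 1 := ⟨L - i - 1, by omega⟩
  rw [hs, pow_succ]
  have h2 : par y i % 2 = par y i := by unfold par; omega
  have h3 : (2 : ℤ) ^ s * 2 * m = 2 * (2 ^ s * m) := by ring
  rw [h3]
  omega

theorem par_inj : ∀ (L : ℕ) (x y : ℤ), (∀ i < L, par x i = par y i) → (2 : ℤ) ^ L ∣ x - y
  | 0, x, y, _ => by simp
  | L + 1, x, y, h => by
    have ih := par_inj L x y (fun i hi => h i (by omega))
    obtain ⟨m, hm⟩ := ih
    have h1 : x = y + 2 ^ L * m := by linarith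
    have h2 := h L (by omega)
    rw [h1, par_shift] at h2
    have h3 : par y L % 2 = par y L := by unfold par; omega
    have h4 : m % 2 = 0 := by omega
    obtain ⟨m', hm'⟩ : (2 : ℤ) ∣ m := Int.dvd_of_emod_eq_zero h4
    exact ⟨m', by rw [hm, hm', pow_succ]; ring⟩

theorem par_ex (p : ℕ → ℤ) (hp : ∀ i, p i = 0 ∨ p i = 1) : ∀ L : ℕ, ∃ y : ℤ, 0 ≤ y ∧ y < 2 ^ L ∧
    ∀ i < L, par y i = p i
  | 0 => ⟨0, le_rfl, by norm_num, fun i hi => absurd hi (Nat.not_lt_zero i)⟩
  | L + 1 => by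
    obtain ⟨y, h1, h2, h3⟩ := par_ex p hp L
    have h2L : (0 : ℤ) < 2 ^ L := by positivity
    by_cases h4 : par y L = p L
    · refine ⟨y, h1, by rw [pow_succ]; linarith, ?_⟩
      intro i hi
      rcases Nat.lt_succ_iff_lt_or_eq.1 hi with h | h
      · exact h3 i h
      · rw [h]; exact h4
    · refine ⟨y + 2 ^ L * 1, by linarith, by rw [pow_succ]; linarith, ?_⟩
      intro i hi
      rcases Nat.lt_succ_iff_lt_or_eq.1 hi with h | h
      · rw [← h3 i h]
        exact par_per ⟨1, by ring⟩ i h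
      · rw [h, par_shift]
        have h5 : par y L = 0 ∨ par y L = 1 := by unfold par; omega
        have h6 := hp L
        omega

/-- the residues modulo `2 ^ L` without a run of `r` terms of parity `e` among the first `L` terms -/
noncomputable def NR (e : ℤ) (r L : ℕ) : Finset ℤ :=
  (Ico (0 : ℤ) (2 ^ L)).filter (fun y => ∀ k ≤ L, k + r ≤ L → ∃ i < r, par y (k + i) ≠ e)

/-- the residues modulo `2 ^ (L + 1)` the first run of which is complete with the last term -/
noncomputable def DR (e : ℤ) (r L : ℕ) : Finset ℤ :=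
  (Ico (0 : ℤ) (2 ^ (L + 1))).filter (fun y => (∀ k ≤ L, k + r ≤ L → ∃ i < r, par y (k + i) ≠ e) ∧
    ∀ i < r, par y (L + 1 - r + i) = e)

theorem mem_NR {e : ℤ} {r L : ℕ} {y : ℤ} : y ∈ NR e r L ↔ (0 ≤ y ∧ y < 2 ^ L) ∧
    ∀ k ≤ L, k + r ≤ L → ∃ i < r, par y (k + i) ≠ e := by
  unfold NR; rw [mem_filter, Finset.mem_Ico]

theorem mem_DR {e : ℤ} {r L : ℕ} {y : ℤ} : y ∈ DR e r L ↔ (0 ≤ y ∧ y < 2 ^ (L + 1)) ∧
    (∀ k ≤ L, k + r ≤ L → ∃ i < r, par y (k + i) ≠ e) ∧ ∀ i < r, par y (L + 1 - r + i) = e := by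
  unfold DR; rw [mem_filter, Finset.mem_Ico]

theorem claim1 {e : ℤ} {r L : ℕ} (hr : 1 ≤ r) (hL : r ≤ L) :
    (NR e r (L + 1)).card + (DR e r L).card ≤ 2 * (NR e r L).card := by
  have hdisj : Disjoint (NR e r (L + 1)) (DR e r L) := by
    rw [Finset.disjoint_left]
    intro y h1 h2
    rw [mem_NR] at h1
    rw [mem_DR] at h2
    obtain ⟨i, hi, h3⟩ := h1.2 (L + 1 - r) (by omega) (by omega)
    exact h3 (h2.2.2 i hi)
  rw [← card_union_of_disjoint hdisj]
  have h2L : (0 : ℤ) < 2 ^ L := by positivity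
  have hinj : (NR e r (L + 1) ∪ DR e r L).card ≤ ((NR e r L) ×ˢ (Ico (0 : ℤ) 2)).card := by
    apply card_le_card_of_injOn (fun y => (y % 2 ^ L, y / 2 ^ L))
    · intro y hy
      rw [mem_coe, mem_union, mem_NR, mem_DR] at hy
      have hb : 0 ≤ y ∧ y < 2 ^ (L + 1) := by
        rcases hy with h | h
        · exact h.1
        · exact h.1
      have hn : ∀ k ≤ L, k + r ≤ L → ∃ i < r, par y (k + i) ≠ e := by
        rcases hy with h | h
        · exact fun k hk hkr => h.2 k (by omega) (by omega)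
        · exact h.2.1
      have hdiv : (2 : ℤ) ^ L ∣ y % 2 ^ L - y := ⟨-(y / 2 ^ L), by have := Int.mul_ediv_add_emod y (2 ^ L); linarith⟩
      rw [mem_coe, mem_product, mem_NR, Finset.mem_Ico]
      refine ⟨⟨⟨Int.emod_nonneg _ h2L.ne', Int.emod_lt_of_pos _ h2L⟩, ?_⟩, ?_, ?_⟩
      · intro k hk hkr
        obtain ⟨i, hi, h3⟩ := hn k hk hkr
        refine ⟨i, hi, ?_⟩
        rw [par_per hdiv (k + i) (by omega)]
        exact h3
      · exact Int.ediv_nonneg hb.1 h2L.le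
      · exact Int.ediv_lt_of_lt_mul h2L (by rw [pow_succ] at hb; linarith [hb.2])
    · intro y _ y' _ h
      simp only [Prod.mk.injEq] at h
      rw [← Int.mul_ediv_add_emod y (2 ^ L), ← Int.mul_ediv_add_emod y' (2 ^ L), h.1, h.2]
  rw [card_product, Int.card_Ico] at hinj
  simp only [sub_zero] at hinj
  have : (2 : ℤ).toNat = 2 := rfl
  rw [this] at hinj
  omega

theorem claim2 {e : ℤ} (he : e = 0 ∨ e = 1) {r L : ℕ} (hL : r ≤ L) :
    (NR e r L).card ≤ (DR e r L).card * 2 ^ r := by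
  have hg : ∀ y : ℤ, ∃ g : ℤ, 0 ≤ g ∧ g < 2 ^ (L + 1) ∧ ∀ i < L + 1, par g i =
      if i < L - r then par y i else if i = L - r then 1 - e else e := by
    intro y
    apply par_ex
    intro i
    split_ifs
    · unfold par; omega
    · omega
    · exact he
  choose g hg using hg
  have h2r : (0 : ℤ) < 2 ^ r := by positivity
  have hinj : (NR e r L).card ≤ ((DR e r L) ×ˢ (Ico (0 : ℤ) (2 ^ r))).card := by
    apply card_le_card_of_injOn (fun y => (g y, (Tz 1)^[L - r] y % 2 ^ r))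
    · intro y hy
      rw [mem_coe, mem_NR] at hy
      obtain ⟨h1, h2, h3⟩ := hg y
      rw [mem_coe, mem_product, mem_DR, Finset.mem_Ico]
      refine ⟨⟨⟨h1, h2⟩, ?_, ?_⟩, Int.emod_nonneg _ h2r.ne', Int.emod_lt_of_pos _ h2r⟩
      · intro k hk hkr
        by_cases hc : k + r ≤ L - r
        · obtain ⟨i, hi, h4⟩ := hy.2 k hk hkr
          refine ⟨i, hi, ?_⟩
          simp only
          rw [h3 (k + i) (by omega), if_pos (by omega)]
          exact h4
        · -- the position `L - r` is in the window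
          refine ⟨L - r - k, by omega, ?_⟩
          simp only
          have e1 : k + (L - r - k) = L - r := by omega
          rw [e1, h3 (L - r) (by omega), if_neg (by omega), if_pos rfl]
          omega
      · intro i hi
        simp only
        rw [h3 _ (by omega), if_neg (by omega), if_neg (by omega)]
    · intro y hy y' hy' h
      rw [mem_coe, mem_NR] at hy hy'
      simp only [Prod.mk.injEq] at h
      obtain ⟨h1, h2⟩ := h
      have hpar : ∀ i < L, par y i = par y' i := by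
        intro i hi
        by_cases hc : i < L - r
        · have e1 := (hg y).2.2 i (by omega)
          have e2 := (hg y').2.2 i (by omega)
          rw [if_pos hc] at e1 e2
          rw [← e1, ← e2, h1]
        · have h3 : (2 : ℤ) ^ r ∣ (Tz 1)^[L - r] y - (Tz 1)^[L - r] y' := by
            apply Int.dvd_of_emod_eq_zero
            exact Int.emod_eq_emod_iff_emod_sub_eq_zero.1 h2
          have h4 := par_per h3 (i - (L - r)) (by omega)
          unfold par at h4 ⊢
          rw [← Function.iterate_add_apply, ← Function.iterate_add_apply,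
            Nat.sub_add_cancel (by omega)] at h4
          exact h4
      obtain ⟨m, hm⟩ := par_inj L y y' hpar
      have h2L : (0 : ℤ) < 2 ^ L := by positivity
      have h5 : y - y' < 2 ^ L := by linarith [hy.1.2, hy'.1.1]
      have h6 : -(2 : ℤ) ^ L < y - y' := by linarith [hy'.1.2, hy.1.1]
      rw [hm] at h5 h6
      have h7 : m < 1 := by nlinarith
      have h8 : -1 < m := by nlinarith
      have h9 : m = 0 := by omega
      rw [h9, mul_zero] at hm
      linarith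
  rw [card_product, Int.card_Ico] at hinj
  simp only [sub_zero] at hinj
  have : ((2 : ℤ) ^ r).toNat = 2 ^ r := by
    have h1 : ((2 : ℤ) ^ r) = ((2 ^ r : ℕ) : ℤ) := by push_cast; rfl
    rw [h1, Int.toNat_natCast]
  rwa [this] at hinj

theorem NR_card {e : ℤ} (he : e = 0 ∨ e = 1) {r : ℕ} (hr : 1 ≤ r) : ∀ L : ℕ, r ≤ L →
    ((NR e r L).card : ℝ) ≤ 2 ^ L * (1 - 1 / 2 ^ (r + 1)) ^ (L - r) := by
  intro L hL
  induction L, hL using Nat.le_induction with
  | base =>
    rw [Nat.sub_self, pow_zero, mul_one]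
    have h1 : (NR e r r).card ≤ (Ico (0 : ℤ) (2 ^ r)).card := card_filter_le _ _
    rw [Int.card_Ico, sub_zero] at h1
    have : ((2 : ℤ) ^ r).toNat = 2 ^ r := by
      have h1 : ((2 : ℤ) ^ r) = ((2 ^ r : ℕ) : ℤ) := by push_cast; rfl
      rw [h1, Int.toNat_natCast]
    rw [this] at h1
    exact_mod_cast h1
  | succ L hL ih =>
    have h1 : ((NR e r (L + 1)).card : ℝ) + (DR e r L).card ≤ 2 * (NR e r L).card := by
      exact_mod_cast claim1 hr hL
    have h2 : ((NR e r L).card : ℝ) ≤ (DR e r L).card * 2 ^ r := by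
      exact_mod_cast claim2 he hL
    have h2r : (0 : ℝ) < 2 ^ r := by positivity
    have h3 : ((NR e r L).card : ℝ) / 2 ^ r ≤ (DR e r L).card := by
      rw [div_le_iff₀ h2r]; exact h2
    have h4 : ((NR e r (L + 1)).card : ℝ) ≤ 2 * (1 - 1 / 2 ^ (r + 1)) * (NR e r L).card := by
      have : 2 * (1 - 1 / 2 ^ (r + 1)) * ((NR e r L).card : ℝ) = 2 * (NR e r L).card -
          (NR e r L).card / 2 ^ r := by
        rw [pow_succ]; field_simp
      rw [this]
      linarith
    have h5 : (0 : ℝ) ≤ 1 - 1 / 2 ^ (r + 1) := by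
      have : (1 : ℝ) / 2 ^ (r + 1) ≤ 1 := by
        rw [div_le_one (by positivity)]
        exact one_le_pow₀ (by norm_num)
      linarith
    refine h4.trans ?_
    calc 2 * (1 - 1 / 2 ^ (r + 1)) * ((NR e r L).card : ℝ) ≤
        2 * (1 - 1 / 2 ^ (r + 1)) * (2 ^ L * (1 - 1 / 2 ^ (r + 1)) ^ (L - r)) :=
          mul_le_mul_of_nonneg_left ih (by positivity)
      _ = _ := by
          rw [show L + 1 - r = (L - r) + 1 by omega, pow_succ, pow_succ]
          ring

/-- THE LOWER BOUND for the runs: few integers have no run of `r` terms among the first `L` terms -/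
theorem run_lower {e : ℤ} (he : e = 0 ∨ e = 1) {r L N : ℕ} (hr : 1 ≤ r) (hL : r ≤ L) (hN : 2 ^ L ≤ N) :
    (((Icc (1 : ℤ) N).filter (fun n => ∀ k ≤ L, k + r ≤ L → ∃ i < r, par n (k + i) ≠ e)).card : ℝ) ≤
      2 * N * Real.exp (-((L - r : ℕ) : ℝ) / 2 ^ (r + 1)) := by
  have h2L : (0 : ℤ) < 2 ^ L := by positivity
  have hinj : ((Icc (1 : ℤ) N).filter (fun n => ∀ k ≤ L, k + r ≤ L → ∃ i < r, par n (k + i) ≠ e)).card ≤
      ((Icc (0 : ℤ) (N / 2 ^ L)) ×ˢ (NR e r L)).card := by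
    apply card_le_card_of_injOn (fun y => (y / 2 ^ L, y % 2 ^ L))
    · intro y hy
      rw [mem_coe, mem_filter, Finset.mem_Icc] at hy
      obtain ⟨⟨h1, h2⟩, h3⟩ := hy
      have hdiv : (2 : ℤ) ^ L ∣ y % 2 ^ L - y := ⟨-(y / 2 ^ L), by have := Int.mul_ediv_add_emod y (2 ^ L); linarith⟩
      rw [mem_coe, mem_product, mem_NR, Finset.mem_Icc]
      refine ⟨⟨Int.ediv_nonneg (by omega) h2L.le, Int.ediv_le_ediv h2L h2⟩,
        ⟨Int.emod_nonneg _ h2L.ne', Int.emod_lt_of_pos _ h2L⟩, ?_⟩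
      intro k hk hkr
      obtain ⟨i, hi, h4⟩ := h3 k hk hkr
      refine ⟨i, hi, ?_⟩
      simp only
      rw [par_per hdiv (k + i) (by omega)]
      exact h4
    · intro y _ y' _ h
      simp only [Prod.mk.injEq] at h
      rw [← Int.mul_ediv_add_emod y (2 ^ L), ← Int.mul_ediv_add_emod y' (2 ^ L), h.1, h.2]
  rw [card_product, Int.card_Icc] at hinj
  have h1 : ((((N : ℤ) / 2 ^ L + 1 - 0).toNat : ℕ) : ℝ) ≤ 2 * N / 2 ^ L := by
    have e1 : ((N : ℤ) / 2 ^ L + 1 - 0).toNat = N / 2 ^ L + 1 := by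
      have : ((N : ℤ) / 2 ^ L + 1 - 0) = ((N / 2 ^ L + 1 : ℕ) : ℤ) := by push_cast; ring
      rw [this, Int.toNat_natCast]
    rw [e1]
    have e2 : N / 2 ^ L + 1 ≤ 2 * (N / 2 ^ L) := by
      have : 1 ≤ N / 2 ^ L := (Nat.one_le_div_iff (by positivity)).2 hN
      omega
    have e3 : ((N / 2 ^ L : ℕ) : ℝ) ≤ N / 2 ^ L := by
      have := Nat.cast_div_le (α := ℝ) (m := N) (n := 2 ^ L)
      push_cast at this
      exact this
    have e4 : (((N / 2 ^ L + 1 : ℕ)) : ℝ) ≤ 2 * ((N / 2 ^ L : ℕ) : ℝ) := by exact_mod_cast e2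
    calc (((N / 2 ^ L + 1 : ℕ)) : ℝ) ≤ 2 * ((N / 2 ^ L : ℕ) : ℝ) := e4
      _ ≤ 2 * (N / 2 ^ L) := by linarith
      _ = _ := by ring
  have h2 : ((((Icc (1 : ℤ) N).filter (fun n => ∀ k ≤ L, k + r ≤ L → ∃ i < r, par n (k + i) ≠ e)).card : ℕ) : ℝ) ≤
      ((((N : ℤ) / 2 ^ L + 1 - 0).toNat : ℕ) : ℝ) * ((NR e r L).card : ℝ) := by exact_mod_cast hinj
  refine h2.trans ?_
  have h3 := NR_card he hr L hL
  calc ((((N : ℤ) / 2 ^ L + 1 - 0).toNat : ℕ) : ℝ) * ((NR e r L).card : ℝ)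
      ≤ (2 * N / 2 ^ L) * (2 ^ L * (1 - 1 / 2 ^ (r + 1)) ^ (L - r)) :=
        mul_le_mul h1 h3 (Nat.cast_nonneg _) (by positivity)
    _ = 2 * N * (1 - 1 / 2 ^ (r + 1)) ^ (L - r) := by field_simp
    _ ≤ 2 * N * Real.exp (-((L - r : ℕ) : ℝ) / 2 ^ (r + 1)) := by
        apply mul_le_mul_of_nonneg_left _ (by positivity)
        have h4 : 1 - 1 / (2 : ℝ) ^ (r + 1) ≤ Real.exp (-(1 / 2 ^ (r + 1))) := by
          have := Real.add_one_le_exp (-(1 / (2 : ℝ) ^ (r + 1)))
          linarith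
        have h5 : (0 : ℝ) ≤ 1 - 1 / 2 ^ (r + 1) := by
          have : (1 : ℝ) / 2 ^ (r + 1) ≤ 1 := by
            rw [div_le_one (by positivity)]
            exact one_le_pow₀ (by norm_num)
          linarith
        calc (1 - 1 / (2 : ℝ) ^ (r + 1)) ^ (L - r) ≤ (Real.exp (-(1 / 2 ^ (r + 1)))) ^ (L - r) :=
              pow_le_pow_left₀ h5 h4 _
          _ = _ := by rw [← Real.exp_nat_mul]; congr 1; ring

end Pool.Agent.W5h24.BC
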