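import Pool.Agent.W5h24.BC.H

set_option autoImplicit false

/-! # Visits of a set, part I: the longest runs, limit theorem -/

namespace Pool.Agent.W5h24.BC

open Finset Filter Topology
open Pool.Agent.H499R2.CO (Tz)

/-- the 3x+1 function -/
def T (n : ℕ) : ℕ := if n % 2 = 0 then n / 2 else (3 * n + 1) / 2

theorem Tz_cast (n : ℕ) : Tz 1 (n : ℤ) = (T n : ℕ) := by
  unfold Tz T
  by_cases h : n % 2 = 0
  · rw [if_pos (by omega), if_pos h]; push_cast; rfl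
  · rw [if_neg (by omega), if_neg h]; push_cast; rfl

theorem iter_cast : ∀ (k n : ℕ), (Tz 1)^[k] (n : ℤ) = (T^[k] n : ℕ)
  | 0, n => rfl
  | k + 1, n => by
    rw [Function.iterate_succ_apply, Tz_cast, iter_cast k, Function.iterate_succ_apply]

open scoped Classical in
/-- from natural numbers to integers -/
theorem ncard_le {P : ℕ → Prop} {Q : ℤ → Prop} (h : ∀ n : ℕ, 1 ≤ n → P n → Q n) (N : ℕ) :
    {n : ℕ | 1 ≤ n ∧ n ≤ N ∧ P n}.ncard ≤ ((Icc (1 : ℤ) N).filter Q).card := by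
  have hfin : {n : ℕ | 1 ≤ n ∧ n ≤ N ∧ P n}.Finite := (Set.finite_Iic N).subset fun n hn => hn.2.1
  rw [Set.ncard_eq_toFinset_card _ hfin, ← Finset.card_image_of_injective _ (Nat.cast_injective (R := ℤ))]
  apply card_le_card
  intro x hx
  rw [Finset.mem_image] at hx
  obtain ⟨n, hn, rfl⟩ := hx
  rw [Set.Finite.mem_toFinset] at hn
  rw [mem_filter, Finset.mem_Icc]
  exact ⟨⟨by exact_mod_cast hn.1, by exact_mod_cast hn.2.1⟩, h n hn.1 hn.2.2⟩

/-- the integer part of `log_2 log N` -/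
noncomputable def uu (N : ℕ) : ℕ := Nat.log 2 ⌊Real.log N⌋₊

theorem uu_spec {N : ℕ} (hN : 3 ≤ N) : (2 : ℝ) ^ uu N ≤ Real.log N ∧ Real.log N < 2 ^ (uu N + 1) := by
  have h1 : 1 ≤ Real.log N := by
    rw [Real.le_log_iff_exp_le (by positivity)]
    have h3 : (3 : ℝ) ≤ N := by exact_mod_cast hN
    have := Real.exp_one_lt_d9
    linarith
  have h2 : ⌊Real.log N⌋₊ ≠ 0 := by
    have : 1 ≤ ⌊Real.log N⌋₊ := Nat.le_floor (by exact_mod_cast h1)
    omega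
  constructor
  · have h3 : ((2 ^ uu N : ℕ) : ℝ) ≤ (⌊Real.log N⌋₊ : ℝ) := by exact_mod_cast Nat.pow_log_le_self 2 h2
    push_cast at h3
    exact h3.trans (Nat.floor_le (by linarith))
  · have h3 : ⌊Real.log N⌋₊ + 1 ≤ 2 ^ (uu N + 1) := Nat.lt_pow_succ_log_self (by norm_num) _
    have h4 : ((⌊Real.log N⌋₊ : ℝ)) + 1 ≤ 2 ^ (uu N + 1) := by exact_mod_cast h3
    exact (Nat.lt_floor_add_one _).trans_le h4

theorem uu_tendsto : Tendsto uu atTop atTop := by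
  have h1 : Tendsto (fun N : ℕ => Real.log N) atTop atTop := Real.tendsto_log_atTop.comp tendsto_natCast_atTop_atTop
  have h2 : Tendsto (fun N : ℕ => ⌊Real.log N⌋₊) atTop atTop := tendsto_nat_floor_atTop.comp h1
  have h3 : Tendsto (Nat.log 2) atTop atTop := by
    apply tendsto_atTop_mono (f := fun n => Nat.log 2 n) (fun _ => le_rfl)
    rw [tendsto_atTop_atTop]
    intro b
    exact ⟨2 ^ b, fun a ha => Nat.le_log_of_pow_le (by norm_num) ha⟩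
  exact h3.comp h2

theorem log2_bounds {N : ℕ} (hN : 3 ≤ N) : Real.log N * 1.44 - 1 ≤ Nat.log 2 N ∧
    (Nat.log 2 N : ℝ) ≤ 1.45 * Real.log N := by
  have hN0 : (0 : ℝ) < N := by positivity
  have ha := Real.log_two_gt_d9
  have hb := Real.log_two_lt_d9
  have hlog : 0 < Real.log N := Real.log_pos (by exact_mod_cast (by omega : 1 < N))
  constructor
  · have h1 : (N : ℝ) < 2 ^ (Nat.log 2 N + 1) := by
      exact_mod_cast Nat.lt_pow_succ_log_self (by norm_num : 1 < 2) N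
    have h2 := Real.log_lt_log hN0 h1
    rw [Real.log_pow] at h2
    push_cast at h2
    nlinarith
  · have h1 : (2 : ℝ) ^ (Nat.log 2 N) ≤ N := by
      exact_mod_cast Nat.pow_log_le_self 2 (by omega : N ≠ 0)
    have h2 := Real.log_le_log (by positivity) h1
    rw [Real.log_pow] at h2
    have h3 : (0 : ℝ) ≤ Nat.log 2 N := Nat.cast_nonneg _
    nlinarith

/-- `R` consecutive terms of the trajectory of `n`, from the term number `k` on, have the parity `e` -/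
def Run (e n k R : ℕ) : Prop := ∀ i < R, T^[k + i] n % 2 = e

theorem Run.mono {e n k R R' : ℕ} (h : Run e n k R) (hR : R' ≤ R) : Run e n k R' :=
  fun i hi => h i (by omega)

theorem run_z {e n k R : ℕ} : Run e n k R ↔ ∀ i < R, (Tz 1)^[k + i] (n : ℤ) % 2 = (e : ℤ) := by
  unfold Run
  constructor
  · intro h i hi
    rw [iter_cast]
    have := h i hi
    omega
  · intro h i hi
    have := h i hi
    rw [iter_cast] at this
    omega

/-- few integers have a long run above `2 ^ j₀` -/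
theorem upper_main {e : ℕ} (he : e < 2) {ε : ℝ} (hε : 0 < ε) : ∃ s j₀ N₀ : ℕ, ∀ N ≥ N₀,
    ({n : ℕ | 1 ≤ n ∧ n ≤ N ∧ ∃ k, Run e n k (uu N + s) ∧ ∀ j ≤ k, 2 ^ j₀ ≤ T^[j] n}.ncard : ℝ) ≤ ε * N := by
  classical
  obtain ⟨J, C, hJ, hC, h⟩ := run_upper
  have hez : (e : ℤ) = 0 ∨ (e : ℤ) = 1 := by omega
  obtain ⟨j₁, hj₁⟩ := exists_nat_ge (3 * C / ε)
  obtain ⟨s, hs⟩ : ∃ s : ℕ, C * 6 * (1 / 2 : ℝ) ^ s ≤ ε / 3 := by
    obtain ⟨s, hs⟩ := exists_pow_lt_of_lt_one (show 0 < ε / 3 / (C * 6) by positivity)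
      (show (1 / 2 : ℝ) < 1 by norm_num)
    refine ⟨s, ?_⟩
    rw [lt_div_iff₀ (by positivity)] at hs
    linarith
  obtain ⟨v, hv⟩ : ∃ v : ℕ, C * 8 * (1 / 2 : ℝ) ^ v ≤ ε / 3 := by
    obtain ⟨s, hs⟩ := exists_pow_lt_of_lt_one (show 0 < ε / 3 / (C * 8) by positivity)
      (show (1 / 2 : ℝ) < 1 by norm_num)
    refine ⟨s, ?_⟩
    rw [lt_div_iff₀ (by positivity)] at hs
    linarith
  obtain ⟨N₁, hN₁⟩ := eventually_atTop.1 (uu_tendsto.eventually_ge_atTop (4 * v + 1))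
  refine ⟨s, J + j₁, max N₁ 3, fun N hN => ?_⟩
  have hN3 : 3 ≤ N := (le_max_right _ _).trans hN
  have hu := hN₁ N ((le_max_left _ _).trans hN)
  have h1 := h e hez (J + j₁) (by omega) N (uu N + s)
  have h2 : ({n : ℕ | 1 ≤ n ∧ n ≤ N ∧ ∃ k, Run e n k (uu N + s) ∧ ∀ j ≤ k, 2 ^ (J + j₁) ≤ T^[j] n}.ncard : ℝ) ≤
      (((Icc (1 : ℤ) N).filter (fun n => ∃ k : ℕ, (∀ i < uu N + s, (Tz 1)^[k + i] n % 2 = e) ∧
      ∀ j ≤ k, (2 : ℤ) ^ (J + j₁) ≤ (Tz 1)^[j] n)).card : ℝ) := by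
    have := ncard_le (P := fun n => ∃ k, Run e n k (uu N + s) ∧ ∀ j ≤ k, 2 ^ (J + j₁) ≤ T^[j] n)
      (Q := fun n => ∃ k : ℕ, (∀ i < uu N + s, (Tz 1)^[k + i] n % 2 = e) ∧
      ∀ j ≤ k, (2 : ℤ) ^ (J + j₁) ≤ (Tz 1)^[j] n) (by
        rintro n _ ⟨k, h3, h4⟩
        refine ⟨k, run_z.1 h3, fun j hj => ?_⟩
        rw [iter_cast]
        exact_mod_cast h4 j hj) N
    exact_mod_cast this
  refine h2.trans (h1.trans ?_)
  have hNR : (0 : ℝ) < N := by positivity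
  have hlog := (uu_spec hN3).2
  have hL := (log2_bounds hN3).2
  -- three parts
  have p1 : ((Nat.log 2 N : ℝ) + 1) * (1 / 2) ^ (uu N + s) ≤ 6 * (1 / 2) ^ s := by
    have e1 : (Nat.log 2 N : ℝ) + 1 ≤ 6 * 2 ^ uu N := by
      rw [pow_succ] at hlog
      have : (1 : ℝ) ≤ 2 ^ uu N := one_le_pow₀ (by norm_num)
      linarith
    calc ((Nat.log 2 N : ℝ) + 1) * (1 / 2) ^ (uu N + s) ≤ (6 * 2 ^ uu N) * (1 / 2) ^ (uu N + s) :=
          mul_le_mul_of_nonneg_right e1 (by positivity)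
      _ = 6 * (1 / 2) ^ s := by
          rw [pow_add, div_pow, one_pow]
          field_simp
  have p2 : (1 / 2 : ℝ) ^ ((uu N + s - 1) / 4) ≤ (1 / 2) ^ v := by
    apply pow_le_pow_of_le_one (by norm_num) (by norm_num)
    omega
  have p3 : C * (1 / ((J + j₁ : ℕ) : ℝ)) ≤ ε / 3 := by
    have e1 : (3 * C / ε) ≤ ((J + j₁ : ℕ) : ℝ) := by
      refine hj₁.trans ?_
      exact_mod_cast (by omega : j₁ ≤ J + j₁)
    have e2 : (0 : ℝ) < ((J + j₁ : ℕ) : ℝ) := lt_of_lt_of_le (by positivity) e1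
    rw [mul_one_div, div_le_iff₀ e2]
    rw [div_le_iff₀ hε] at e1
    linarith
  have q1 := mul_le_mul_of_nonneg_left p1 hC.le
  have q2 := mul_le_mul_of_nonneg_left p2 (by positivity : 0 ≤ C * 8)
  calc C * N * (((Nat.log 2 N : ℝ) + 1) * (1 / 2) ^ (uu N + s) + 8 * (1 / 2) ^ ((uu N + s - 1) / 4) +
      1 / ((J + j₁ : ℕ) : ℝ))
      = (C * (((Nat.log 2 N : ℝ) + 1) * (1 / 2) ^ (uu N + s)) + C * 8 * (1 / 2) ^ ((uu N + s - 1) / 4) +
        C * (1 / ((J + j₁ : ℕ) : ℝ))) * N := by ring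
    _ ≤ ε * N := by
        apply mul_le_mul_of_nonneg_right _ hNR.le
        linarith

/-- few integers have no long run -/
theorem lower_main {e : ℕ} (he : e < 2) {ε : ℝ} (hε : 0 < ε) : ∃ s N₀ : ℕ, ∀ N ≥ N₀,
    ({n : ℕ | 1 ≤ n ∧ n ≤ N ∧ ¬ ∃ k, Run e n k (uu N - s)}.ncard : ℝ) ≤ ε * N := by
  classical
  have hez : (e : ℤ) = 0 ∨ (e : ℤ) = 1 := by omega
  obtain ⟨s, hs⟩ : ∃ s : ℕ, 2 * Real.exp (-(2 : ℝ) ^ s) ≤ ε := by
    have h1 : Tendsto (fun s : ℕ => 2 * Real.exp (-(2 : ℝ) ^ s)) atTop (𝓝 (2 * 0)) := by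
      apply Tendsto.const_mul
      apply Real.tendsto_exp_neg_atTop_nhds_zero.comp
      exact tendsto_pow_atTop_atTop_of_one_lt (by norm_num)
    rw [mul_zero] at h1
    exact (h1.eventually_le_const hε).exists
  obtain ⟨N₁, hN₁⟩ := eventually_atTop.1 (uu_tendsto.eventually_ge_atTop (s + 10))
  refine ⟨s + 1, max N₁ 3, fun N hN => ?_⟩
  have hN3 : 3 ≤ N := (le_max_right _ _).trans hN
  have hu := hN₁ N ((le_max_left _ _).trans hN)
  set u := uu N with hudef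
  obtain ⟨hlog1, hlog2⟩ := uu_spec hN3
  rw [← hudef] at hlog1 hlog2
  obtain ⟨hL1, hL2⟩ := log2_bounds hN3
  set L := Nat.log 2 N with hL
  have h2u : ((u : ℝ) + 1) * 4 ≤ 2 ^ u := by
    have : (u + 1) * 4 ≤ 2 ^ u := by
      have h9 : 9 ≤ u := by omega
      clear_value u
      clear hu hlog1 hlog2 hudef
      induction u, h9 using Nat.le_induction with
      | base => norm_num
      | succ n hn ih => rw [pow_succ]; omega
    exact_mod_cast this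
  have hu1 : (2 : ℝ) ^ u + (u + 1) ≤ L := by
    have : (10 : ℝ) ≤ (u : ℝ) := by
      have : 10 ≤ u := by omega
      exact_mod_cast this
    linarith
  have huL : u - (s + 1) ≤ L := by
    have h1 : (u : ℝ) ≤ L := by
      have : (0 : ℝ) < 2 ^ u := by positivity
      linarith
    have : u ≤ L := by exact_mod_cast h1
    omega
  have h1 := run_lower hez (r := u - (s + 1)) (L := L) (N := N) (by omega) huL
    (Nat.pow_log_le_self 2 (by omega))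
  have h2 : ({n : ℕ | 1 ≤ n ∧ n ≤ N ∧ ¬ ∃ k, Run e n k (u - (s + 1))}.ncard : ℝ) ≤
      (((Icc (1 : ℤ) N).filter (fun n => ∀ k ≤ L, k + (u - (s + 1)) ≤ L →
        ∃ i < u - (s + 1), par n (k + i) ≠ e)).card : ℝ) := by
    have := ncard_le (P := fun n => ¬ ∃ k, Run e n k (u - (s + 1)))
      (Q := fun n => ∀ k ≤ L, k + (u - (s + 1)) ≤ L → ∃ i < u - (s + 1), par n (k + i) ≠ e) (by
        intro n _ h3 k _ _
        by_contra hcon
        push Not at hcon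
        exact h3 ⟨k, run_z.2 hcon⟩) N
    exact_mod_cast this
  refine h2.trans (h1.trans ?_)
  have hNR : (0 : ℝ) < N := by positivity
  have h3 : (2 : ℝ) ^ s ≤ ((L - (u - (s + 1)) : ℕ) : ℝ) / 2 ^ (u - (s + 1) + 1) := by
    rw [le_div_iff₀ (by positivity)]
    have e1 : (2 : ℝ) ^ s * 2 ^ (u - (s + 1) + 1) = 2 ^ u := by
      rw [← pow_add]; congr 1; omega
    rw [e1]
    have e2 : ((u - (s + 1) : ℕ) : ℝ) ≤ u := by exact_mod_cast Nat.sub_le _ _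
    rw [Nat.cast_sub huL]
    linarith
  have h4 : Real.exp (-((L - (u - (s + 1)) : ℕ) : ℝ) / 2 ^ (u - (s + 1) + 1)) ≤ Real.exp (-(2 : ℝ) ^ s) := by
    apply Real.exp_le_exp.2
    rw [neg_div]
    linarith
  calc 2 * N * Real.exp (-((L - (u - (s + 1)) : ℕ) : ℝ) / 2 ^ (u - (s + 1) + 1)) ≤
      2 * N * Real.exp (-(2 : ℝ) ^ s) := mul_le_mul_of_nonneg_left h4 (by positivity)
    _ = 2 * Real.exp (-(2 : ℝ) ^ s) * N := by ring
    _ ≤ ε * N := mul_le_mul_of_nonneg_right hs hNR.le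

/-- density zero -/
def Dz (P : ℕ → Prop) : Prop :=
  Tendsto (fun N : ℕ => ({n : ℕ | 1 ≤ n ∧ n ≤ N ∧ P n}.ncard : ℝ) / N) atTop (𝓝 0)

theorem dz_of {P : ℕ → Prop} (h : ∀ ε : ℝ, 0 < ε → ∃ N₀ : ℕ, ∀ N ≥ N₀,
    ({n : ℕ | 1 ≤ n ∧ n ≤ N ∧ P n}.ncard : ℝ) ≤ ε * N) : Dz P := by
  unfold Dz
  rw [Metric.tendsto_atTop]
  intro ε hε
  obtain ⟨N₀, hN₀⟩ := h (ε / 2) (by positivity)
  refine ⟨max N₀ 1, fun N hN => ?_⟩
  have hN1 : 1 ≤ N := (le_max_right _ _).trans hN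
  have hNR : (0 : ℝ) < N := by exact_mod_cast hN1
  rw [Real.dist_eq, sub_zero, abs_of_nonneg (by positivity), div_lt_iff₀ hNR]
  have := hN₀ N ((le_max_left _ _).trans hN)
  nlinarith

theorem fin_set (P : ℕ → Prop) (N : ℕ) : {n : ℕ | 1 ≤ n ∧ n ≤ N ∧ P n}.Finite :=
  (Set.finite_Iic N).subset fun _ hn => hn.2.1

/-- counting with finitely many exceptions -/
theorem ncard_split {P Q : ℕ → Prop} {N m : ℕ} (h : ∀ n, 1 ≤ n → m ≤ n → n ≤ N → P n → Q n) :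
    {n : ℕ | 1 ≤ n ∧ n ≤ N ∧ P n}.ncard ≤ {n : ℕ | 1 ≤ n ∧ n ≤ N ∧ Q n}.ncard + m := by
  have hsub : {n : ℕ | 1 ≤ n ∧ n ≤ N ∧ P n} ⊆ {n : ℕ | 1 ≤ n ∧ n ≤ N ∧ Q n} ∪ (Finset.range m : Set ℕ) := by
    rintro n ⟨h1, h2, h3⟩
    by_cases hm : m ≤ n
    · exact Or.inl ⟨h1, h2, h n h1 hm h2 h3⟩
    · right; simpa using not_le.1 hm
  refine (Set.ncard_le_ncard hsub ((fin_set _ _).union (Finset.finite_toSet _))).trans ?_
  refine (Set.ncard_union_le _ _).trans ?_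
  rw [Set.ncard_coe_finset, Finset.card_range]

end Pool.Agent.W5h24.BC
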