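import Pool.Agent.W5h24.BC.I

set_option autoImplicit false

/-! # Visits of a set, part J: the longest runs of complete trajectories -/

namespace Pool.Agent.W5h24.BC

open Finset Filter Topology

theorem T_pos {n : ℕ} (hn : 1 ≤ n) : 1 ≤ T n := by
  unfold T; split_ifs <;> omega

theorem T_iter_one : ∀ i : ℕ, T^[i] 1 = 1 ∨ T^[i] 1 = 2
  | 0 => Or.inl rfl
  | i + 1 => by
    rw [Function.iterate_succ_apply']
    rcases T_iter_one i with h | h
    · right; rw [h]; rfl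
    · left; rw [h]; rfl

/-- the trajectory reaches `1` -/
def Reaches (n : ℕ) : Prop := ∃ k, T^[k] n = 1

theorem Reaches.iter {n : ℕ} (h : Reaches n) (j : ℕ) : Reaches (T^[j] n) := by
  obtain ⟨k, hk⟩ := h
  rcases le_or_gt j k with hjk | hjk
  · refine ⟨k - j, ?_⟩
    rw [← Function.iterate_add_apply, Nat.sub_add_cancel hjk]
    exact hk
  · have h1 : T^[j] n = T^[j - k] 1 := by
      rw [← hk, ← Function.iterate_add_apply, Nat.sub_add_cancel hjk.le]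
    rw [h1]
    rcases T_iter_one (j - k) with h | h
    · exact ⟨0, by rw [h]; rfl⟩
    · exact ⟨1, by rw [h]; rfl⟩

/-- the trajectories of the small numbers which reach `1` are bounded -/
theorem low_bounded (Y : ℕ) : ∃ D : ℕ, ∀ y < Y, Reaches y → ∀ i, T^[i] y ≤ D := by
  have h1 : ∀ y : ℕ, ∃ D : ℕ, Reaches y → ∀ i, T^[i] y ≤ D := by
    intro y
    by_cases hy : Reaches y
    · obtain ⟨k, hk⟩ := hy
      refine ⟨(range (k + 1)).sup (fun i => T^[i] y) + 2, fun _ i => ?_⟩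
      rcases le_or_gt i k with h | h
      · have h2 : i ∈ range (k + 1) := mem_range.2 (by omega)
        have h3 : T^[i] y ≤ (range (k + 1)).sup (fun i => T^[i] y) := le_sup (f := fun i => T^[i] y) h2
        omega
      · have h2 : T^[i] y = T^[i - k] 1 := by
          rw [← hk, ← Function.iterate_add_apply, Nat.sub_add_cancel h.le]
        rw [h2]
        rcases T_iter_one (i - k) with h | h <;> omega
    · exact ⟨0, fun h => absurd h hy⟩
  choose D hD using h1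
  refine ⟨(range Y).sup D, fun y hy hr i => ?_⟩
  exact (hD y hr i).trans (le_sup (f := D) (mem_range.2 hy))

theorem T_iter_pos {n : ℕ} (hn : 1 ≤ n) : ∀ k : ℕ, 1 ≤ T^[k] n
  | 0 => hn
  | k + 1 => by rw [Function.iterate_succ_apply']; exact T_pos (T_iter_pos hn k)

/-- a run begins at a large term -/
theorem run_large {e n k R : ℕ} (he : e < 2) (hn : 1 ≤ n) (h : Run e n k R) : 2 ^ R ≤ T^[k] n + 1 := by
  have h1 := run_dvd (e := (e : ℤ)) (by omega) R ((T^[k] n : ℕ) : ℤ) (by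
    intro i hi
    rw [iter_cast, ← Function.iterate_add_apply, add_comm]
    have := h i hi
    omega)
  have h2 := T_iter_pos hn k
  have h3 := Int.le_of_dvd (by omega) h1
  have h4 : (2 : ℤ) ^ R ≤ ((T^[k] n + 1 : ℕ) : ℤ) := by push_cast; omega
  exact_mod_cast h4

theorem logb_bounds {n N : ℕ} (hN : 16 ≤ N) (hn : Nat.sqrt N + 1 ≤ n) (hnN : n ≤ N) :
    (uu N : ℝ) - 1 ≤ Real.logb 2 (Real.log n) ∧ Real.logb 2 (Real.log n) ≤ uu N + 1 := by
  obtain ⟨h1, h2⟩ := uu_spec (by omega : 3 ≤ N)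
  have hn0 : 0 < n := by omega
  have hnR : (0 : ℝ) < n := by exact_mod_cast hn0
  have hNR : (0 : ℝ) < N := by exact_mod_cast (by omega : 0 < N)
  have h3 : N ≤ n ^ 2 := by
    have h4 := Nat.lt_succ_sqrt' N
    have h5 : (Nat.sqrt N).succ ^ 2 ≤ n ^ 2 := Nat.pow_le_pow_left (by omega) 2
    omega
  have h4 : Real.log N ≤ 2 * Real.log n := by
    have h5 : Real.log N ≤ Real.log ((n : ℝ) ^ 2) := Real.log_le_log hNR (by exact_mod_cast h3)
    rwa [Real.log_pow, Nat.cast_ofNat] at h5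
  have h5 : Real.log n ≤ Real.log N := Real.log_le_log hnR (by exact_mod_cast hnN)
  have h6 : (0 : ℝ) < 2 ^ uu N := by positivity
  have h7 : 0 < Real.log n := by linarith
  constructor
  · rw [Real.le_logb_iff_rpow_le (by norm_num) h7, Real.rpow_sub (by norm_num), Real.rpow_natCast,
      Real.rpow_one]
    linarith
  · rw [Real.logb_le_iff_le_rpow (by norm_num) h7]
    have e1 : (2 : ℝ) ^ ((uu N : ℝ) + 1) = 2 ^ (uu N + 1) := by
      rw [← Real.rpow_natCast]; push_cast; rfl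
    rw [e1]
    linarith

/-- the number of small integers is small -/
theorem sqrt_small {δ : ℝ} (hδ : 0 < δ) (m : ℕ) : ∃ N₀ : ℕ, ∀ N ≥ N₀,
    ((Nat.sqrt N + 1 : ℕ) : ℝ) ≤ δ * N ∧ m ≤ Nat.sqrt N + 1 := by
  obtain ⟨a, ha⟩ := exists_nat_ge (2 / δ)
  refine ⟨(a + m + 1) ^ 2, fun N hN => ?_⟩
  have h1 : a + m + 1 ≤ Nat.sqrt N := Nat.le_sqrt'.2 hN
  refine ⟨?_, by omega⟩
  have h2 : (a : ℝ) ≤ Nat.sqrt N := by exact_mod_cast (by omega : a ≤ Nat.sqrt N)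
  have h3 : ((Nat.sqrt N : ℕ) : ℝ) ^ 2 ≤ N := by exact_mod_cast Nat.sqrt_le' N
  have h4 : (1 : ℝ) ≤ Nat.sqrt N := by exact_mod_cast (by omega : 1 ≤ Nat.sqrt N)
  have h5 : 2 ≤ δ * Nat.sqrt N := by
    have := ha.trans h2
    rw [div_le_iff₀ hδ] at this
    linarith
  push_cast
  calc ((Nat.sqrt N : ℕ) : ℝ) + 1 ≤ 2 * Nat.sqrt N := by linarith
    _ ≤ δ * Nat.sqrt N * Nat.sqrt N := mul_le_mul_of_nonneg_right h5 (by linarith)
    _ = δ * (Nat.sqrt N : ℝ) ^ 2 := by ring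
    _ ≤ δ * N := mul_le_mul_of_nonneg_left h3 hδ.le

/-- the longest run has length `R` -/
def IsLongestRun (e n R : ℕ) : Prop := (∃ k, Run e n k R) ∧ ¬ ∃ k, Run e n k (R + 1)

/-- complete trajectories -/
theorem complete {e : ℕ} (he : e < 2) {ψ : ℕ → ℝ} (hψ : Tendsto ψ atTop atTop) :
    Dz (fun n => Reaches n ∧ ¬ ∃ R : ℕ, IsLongestRun e n R ∧ |(R : ℝ) - Real.logb 2 (Real.log n)| ≤ ψ n) := by
  classical
  apply dz_of
  intro ε hε
  obtain ⟨s, j₀, N₁, h1⟩ := upper_main he (ε := ε / 4) (by positivity)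
  obtain ⟨s', N₂, h2⟩ := lower_main he (ε := ε / 4) (by positivity)
  obtain ⟨D, hD⟩ := low_bounded (2 ^ j₀)
  obtain ⟨m, hm⟩ := eventually_atTop.1 (hψ.eventually_ge_atTop ((s : ℝ) + s' + 1))
  obtain ⟨N₃, h3⟩ := sqrt_small (show 0 < ε / 4 by positivity) m
  obtain ⟨N₄, h4⟩ := eventually_atTop.1 (uu_tendsto.eventually_ge_atTop (D + 2))
  refine ⟨N₁ + N₂ + N₃ + N₄ + 16, fun N hN => ?_⟩
  have g1 := h1 N (by omega)
  have g2 := h2 N (by omega)
  obtain ⟨g3, g3'⟩ := h3 N (by omega)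
  have g4 := h4 N (by omega)
  set P₁ : ℕ → Prop := fun n => ∃ k, Run e n k (uu N + s) ∧ ∀ j ≤ k, 2 ^ j₀ ≤ T^[j] n with hP₁
  set P₂ : ℕ → Prop := fun n => ¬ ∃ k, Run e n k (uu N - s') with hP₂
  have hsub := ncard_split (P := fun n => Reaches n ∧ ¬ ∃ R : ℕ, IsLongestRun e n R ∧
      |(R : ℝ) - Real.logb 2 (Real.log n)| ≤ ψ n) (Q := fun n => P₁ n ∨ P₂ n) (N := N)
      (m := Nat.sqrt N + 1) (by
    rintro n hn1 hnm hnN ⟨hr, hno⟩
    by_contra hcon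
    push Not at hcon
    obtain ⟨hc1, hc2⟩ := hcon
    rw [hP₂] at hc2
    simp only [not_not] at hc2
    -- no run of length `u + s`
    have hup : ¬ ∃ k, Run e n k (uu N + s) := by
      rintro ⟨k, hk⟩
      by_cases hall : ∀ j ≤ k, 2 ^ j₀ ≤ T^[j] n
      · exact hc1 ⟨k, hk, hall⟩
      · push Not at hall
        obtain ⟨j, hj, hjl⟩ := hall
        have a1 := hD _ hjl (hr.iter j) (k - j)
        rw [← Function.iterate_add_apply, Nat.sub_add_cancel hj] at a1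
        have a2 := run_large he hn1 hk
        have a3 : uu N + s < 2 ^ (uu N + s) := Nat.lt_two_pow_self
        omega
    apply hno
    set R := Nat.findGreatest (fun R => ∃ k, Run e n k R) (uu N + s) with hR
    have hR1 : ∃ k, Run e n k R := by
      have := Nat.findGreatest_spec (P := fun R => ∃ k, Run e n k R) (Nat.zero_le (uu N + s))
        ⟨0, fun i hi => absurd hi (Nat.not_lt_zero i)⟩
      exact this
    have hR2 : R ≤ uu N + s := Nat.findGreatest_le _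
    have hR3 : R ≠ uu N + s := by
      intro h
      rw [h] at hR1
      exact hup hR1
    have hR4 : ¬ ∃ k, Run e n k (R + 1) :=
      Nat.findGreatest_is_greatest (P := fun R => ∃ k, Run e n k R) (Nat.lt_succ_self R) (by omega)
    have hR5 : uu N - s' ≤ R := Nat.le_findGreatest (by omega) hc2
    refine ⟨R, ⟨hR1, hR4⟩, ?_⟩
    obtain ⟨b1, b2⟩ := logb_bounds (by omega : 16 ≤ N) hnm hnN
    have b3 := hm n (by omega)
    have b4 : (R : ℝ) ≤ uu N + s := by exact_mod_cast hR2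
    have b5 : (uu N : ℝ) ≤ R + s' := by
      have : uu N ≤ R + s' := by omega
      exact_mod_cast this
    have b6 : (R : ℝ) + 1 ≤ uu N + s := by
      have : R + 1 ≤ uu N + s := by omega
      exact_mod_cast this
    have b7 : (0 : ℝ) ≤ s := Nat.cast_nonneg _
    have b8 : (0 : ℝ) ≤ s' := Nat.cast_nonneg _
    rw [abs_le]
    constructor <;> linarith)
  have hun : {n : ℕ | 1 ≤ n ∧ n ≤ N ∧ (P₁ n ∨ P₂ n)}.ncard ≤
      {n : ℕ | 1 ≤ n ∧ n ≤ N ∧ P₁ n}.ncard + {n : ℕ | 1 ≤ n ∧ n ≤ N ∧ P₂ n}.ncard := by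
    have : {n : ℕ | 1 ≤ n ∧ n ≤ N ∧ (P₁ n ∨ P₂ n)} =
        {n : ℕ | 1 ≤ n ∧ n ≤ N ∧ P₁ n} ∪ {n : ℕ | 1 ≤ n ∧ n ≤ N ∧ P₂ n} := by
      ext n
      constructor
      · rintro ⟨a1, a2, a3 | a3⟩
        · exact Or.inl ⟨a1, a2, a3⟩
        · exact Or.inr ⟨a1, a2, a3⟩
      · rintro (⟨a1, a2, a3⟩ | ⟨a1, a2, a3⟩)
        · exact ⟨a1, a2, Or.inl a3⟩
        · exact ⟨a1, a2, Or.inr a3⟩
    rw [this]
    exact Set.ncard_union_le _ _
  have htot := hsub.trans (Nat.add_le_add_right hun _)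
  have htotR : ({n : ℕ | 1 ≤ n ∧ n ≤ N ∧ (Reaches n ∧ ¬ ∃ R : ℕ, IsLongestRun e n R ∧
      |(R : ℝ) - Real.logb 2 (Real.log n)| ≤ ψ n)}.ncard : ℝ) ≤
      ({n : ℕ | 1 ≤ n ∧ n ≤ N ∧ P₁ n}.ncard : ℝ) + {n : ℕ | 1 ≤ n ∧ n ≤ N ∧ P₂ n}.ncard +
        ((Nat.sqrt N + 1 : ℕ) : ℝ) := by exact_mod_cast htot
  have hN0 : (0 : ℝ) ≤ N := Nat.cast_nonneg _
  nlinarith

/-- all trajectories, before the first small term -/
theorem unbounded {e : ℕ} (he : e < 2) {ψ f : ℕ → ℝ} (hψ : Tendsto ψ atTop atTop)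
    (hf : Tendsto f atTop atTop) :
    Dz (fun n => ∃ k R : ℕ, Real.logb 2 (Real.log n) + ψ n ≤ R ∧ Run e n k R ∧
      ∀ j ≤ k, f n ≤ ((T^[j] n : ℕ) : ℝ)) := by
  classical
  apply dz_of
  intro ε hε
  obtain ⟨s, j₀, N₁, h1⟩ := upper_main he (ε := ε / 4) (by positivity)
  obtain ⟨m, hm⟩ := eventually_atTop.1 (hψ.eventually_ge_atTop ((s : ℝ) + 1))
  obtain ⟨m', hm'⟩ := eventually_atTop.1 (hf.eventually_ge_atTop ((2 : ℝ) ^ j₀))
  obtain ⟨N₃, h3⟩ := sqrt_small (show 0 < ε / 4 by positivity) (m + m')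
  refine ⟨N₁ + N₃ + 16, fun N hN => ?_⟩
  have g1 := h1 N (by omega)
  obtain ⟨g3, g3'⟩ := h3 N (by omega)
  have hsub := ncard_split (P := fun n => ∃ k R : ℕ, Real.logb 2 (Real.log n) + ψ n ≤ R ∧ Run e n k R ∧
      ∀ j ≤ k, f n ≤ ((T^[j] n : ℕ) : ℝ)) (Q := fun n => ∃ k, Run e n k (uu N + s) ∧ ∀ j ≤ k, 2 ^ j₀ ≤ T^[j] n)
      (N := N) (m := Nat.sqrt N + 1) (by
    rintro n hn1 hnm hnN ⟨k, R, hR, hrun, hlow⟩
    obtain ⟨b1, b2⟩ := logb_bounds (by omega : 16 ≤ N) hnm hnN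
    have b3 := hm n (by omega)
    have b4 := hm' n (by omega)
    refine ⟨k, hrun.mono ?_, fun j hj => ?_⟩
    · have : ((uu N + s : ℕ) : ℝ) ≤ R := by push_cast; linarith
      exact_mod_cast this
    · have := b4.trans (hlow j hj)
      exact_mod_cast this)
  have htotR : ({n : ℕ | 1 ≤ n ∧ n ≤ N ∧ (∃ k R : ℕ, Real.logb 2 (Real.log n) + ψ n ≤ R ∧ Run e n k R ∧
      ∀ j ≤ k, f n ≤ ((T^[j] n : ℕ) : ℝ))}.ncard : ℝ) ≤
      ({n : ℕ | 1 ≤ n ∧ n ≤ N ∧ ∃ k, Run e n k (uu N + s) ∧ ∀ j ≤ k, 2 ^ j₀ ≤ T^[j] n}.ncard : ℝ) +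
        ((Nat.sqrt N + 1 : ℕ) : ℝ) := by exact_mod_cast hsub
  have hN0 : (0 : ℝ) ≤ N := Nat.cast_nonneg _
  nlinarith

end Pool.Agent.W5h24.BC
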